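import Pool.Agent.R326.CycRoots

/-!
The cyclotomic polynomials of orders `885 = 3 * 5 * 59` and `1239 = 3 * 7 * 59` and the numbers of
their real critical points.
-/

set_option autoImplicit false
set_option maxRecDepth 100000

namespace Pool.Agent.R326

open Polynomial

/-- the coefficients of the cyclotomic polynomial of order `885` -/
def L885 : List ℤ :=
  [1, 1, 1, 0, 0, -1, -1, -1, 0, 0, 0, 0, 0, 0, 0, 1, 1, 1, 0, 0, -1, -1, -1, 0, 0, 0, 0, 0, 0,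
    0, 1, 1, 1, 0, 0, -1, -1, -1, 0, 0, 0, 0, 0, 0, 0, 1, 1, 1, 0, 0, -1, -1, -1, 0, 0, 0, 0,
    0, 0, -1, 0, 0, 1, 0, 1, 0, 0, -1, 0, 0, 0, 0, 0, 0, -1, 0, 0, 1, 0, 1, 0, 0, -1, 0, 0, 0,
    0, 0, 0, -1, 0, 0, 1, 0, 1, 0, 0, -1, 0, 0, 0, 0, 0, 0, -1, 0, 0, 1, 0, 1, 0, 0, -1, 0, 0,
    0, 0, 0, 0, -1, 0, 0, 1, 0, 1, 0, 0, -1, 0, 0, 0, 0, 0, 0, -1, 0, 0, 1, 0, 1, 0, 0, -1, 0,
    0, 0, 0, 0, 0, -1, 0, 0, 1, 0, 1, 0, 0, -1, 0, 0, 0, 0, 0, 0, -1, 0, 0, 1, 0, 1, 0, 0, -1,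
    0, 0, 0, 0, 1, 1, 0, 0, 0, 0, -1, 0, 0, 0, -1, 0, 0, 0, 0, 1, 1, 0, 0, 0, 0, -1, 0, 0, 0,
    -1, 0, 0, 0, 0, 1, 1, 0, 0, 0, 0, -1, 0, 0, 0, -1, 0, 0, 0, 0, 1, 1, 0, 0, 0, 0, -1, 0, 0,
    0, -1, 0, 0, 0, -1, 0, 0, 0, 0, 1, 1, 0, 0, 0, 0, -1, 0, 0, 0, -1, 0, 0, 0, 0, 1, 1, 0, 0,
    0, 0, -1, 0, 0, 0, -1, 0, 0, 0, 0, 1, 1, 0, 0, 0, 0, -1, 0, 0, 0, -1, 0, 0, 0, 0, 1, 1, 0,
    0, 0, 0, -1, 0, 0, 1, 0, 1, 0, 0, -1, 0, 0, 0, 0, 0, 0, -1, 0, 0, 1, 0, 1, 0, 0, -1, 0, 0,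
    0, 0, 0, 0, -1, 0, 0, 1, 0, 1, 0, 0, -1, 0, 0, 0, 0, 0, 0, -1, 0, 0, 1, 0, 1, 0, 0, -1, 0,
    0, 0, 0, 0, 0, -1, 0, 0, 1, 0, 1, 0, 0, -1, 0, 0, 0, 0, 0, 0, -1, 0, 0, 1, 0, 1, 0, 0, -1,
    0, 0, 0, 0, 0, 0, -1, 0, 0, 1, 0, 1, 0, 0, -1, 0, 0, 0, 0, 0, 0, -1, 0, 0, 1, 0, 1, 0, 0,
    -1, 0, 0, 0, 0, 0, 0, -1, -1, -1, 0, 0, 1, 1, 1, 0, 0, 0, 0, 0, 0, 0, -1, -1, -1, 0, 0, 1,
    1, 1, 0, 0, 0, 0, 0, 0, 0, -1, -1, -1, 0, 0, 1, 1, 1, 0, 0, 0, 0, 0, 0, 0, -1, -1, -1, 0,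
    0, 1, 1, 1]

/-- the coefficients of the cyclotomic polynomial of order `1239` -/
def L1239 : List ℤ :=
  [1, 1, 1, 0, 0, 0, 0, -1, -1, -1, 0, 0, 0, 0, 0, 0, 0, 0, 0, 0, 0, 1, 1, 1, 0, 0, 0, 0, -1,
    -1, -1, 0, 0, 0, 0, 0, 0, 0, 0, 0, 0, 0, 1, 1, 1, 0, 0, 0, 0, -1, -1, -1, 0, 0, 0, 0, 0, 0,
    0, -1, -1, -1, 0, 1, 1, 1, 1, 1, 1, 0, -1, -1, -1, 0, 0, 0, 0, 0, 0, 0, -1, -1, -1, 0, 1,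
    1, 1, 1, 1, 1, 0, -1, -1, -1, 0, 0, 0, 0, 0, 0, 0, -1, -1, -1, 0, 1, 1, 1, 1, 1, 1, 0, -1,
    -1, -1, 0, 0, 0, 0, 0, 0, 0, -1, -1, -1, 0, 1, 1, 1, 1, 1, 1, 0, -1, -1, -1, 0, 0, 0, 0, 0,
    0, 0, -1, -1, -1, 0, 1, 1, 1, 1, 1, 1, 0, -1, -1, -1, 0, 0, 0, 0, 0, 0, 0, -1, -1, -1, 0,
    1, 1, 1, 1, 1, 1, 0, -1, -1, 0, 1, 1, 0, 0, 0, 0, -1, -2, -2, -1, 0, 1, 1, 1, 1, 1, 1, 0,
    -1, -1, 0, 1, 1, 0, 0, 0, 0, -1, -2, -2, -1, 0, 1, 1, 1, 1, 1, 1, 0, -1, -1, 0, 1, 1, 0, 0,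
    0, 0, -1, -2, -2, -1, 0, 1, 1, 1, 1, 1, 0, -1, -2, -1, 0, 1, 1, 1, 1, 1, 0, -1, -2, -2, -1,
    0, 1, 1, 1, 1, 1, 0, -1, -2, -1, 0, 1, 1, 1, 1, 1, 0, -1, -2, -2, -1, 0, 1, 1, 1, 1, 1, 0,
    -1, -2, -1, 0, 1, 1, 1, 1, 1, 0, -1, -2, -2, -1, 0, 1, 1, 1, 1, 1, 0, -1, -2, -1, 0, 1, 1,
    1, 1, 1, 0, -1, -2, -2, -1, 0, 1, 1, 1, 1, 1, 0, -1, -2, -1, 0, 1, 1, 1, 1, 1, 0, -1, -2,
    -2, -1, 0, 1, 1, 1, 1, 1, 0, -1, -2, -1, 0, 1, 1, 1, 1, 1, 0, -1, -2, -1, 0, 1, 1, 1, 1, 1,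
    0, -1, -2, -2, -1, 0, 1, 1, 1, 1, 1, 0, -1, -2, -1, 0, 1, 1, 1, 1, 1, 0, -1, -2, -2, -1, 0,
    1, 1, 1, 1, 1, 0, -1, -2, -1, 0, 1, 1, 1, 1, 1, 0, -1, -2, -2, -1, 0, 1, 1, 1, 1, 1, 0, -1,
    -2, -1, 0, 1, 1, 1, 1, 1, 0, -1, -2, -2, -1, 0, 1, 1, 1, 1, 1, 0, -1, -2, -1, 0, 1, 1, 1,
    1, 1, 0, -1, -2, -2, -1, 0, 1, 1, 1, 1, 1, 0, -1, -2, -1, 0, 1, 1, 1, 1, 1, 0, -1, -2, -2,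
    -1, 0, 0, 0, 0, 1, 1, 0, -1, -1, 0, 1, 1, 1, 1, 1, 1, 0, -1, -2, -2, -1, 0, 0, 0, 0, 1, 1,
    0, -1, -1, 0, 1, 1, 1, 1, 1, 1, 0, -1, -2, -2, -1, 0, 0, 0, 0, 1, 1, 0, -1, -1, 0, 1, 1, 1,
    1, 1, 1, 0, -1, -1, -1, 0, 0, 0, 0, 0, 0, 0, -1, -1, -1, 0, 1, 1, 1, 1, 1, 1, 0, -1, -1,
    -1, 0, 0, 0, 0, 0, 0, 0, -1, -1, -1, 0, 1, 1, 1, 1, 1, 1, 0, -1, -1, -1, 0, 0, 0, 0, 0, 0,
    0, -1, -1, -1, 0, 1, 1, 1, 1, 1, 1, 0, -1, -1, -1, 0, 0, 0, 0, 0, 0, 0, -1, -1, -1, 0, 1,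
    1, 1, 1, 1, 1, 0, -1, -1, -1, 0, 0, 0, 0, 0, 0, 0, -1, -1, -1, 0, 1, 1, 1, 1, 1, 1, 0, -1,
    -1, -1, 0, 0, 0, 0, 0, 0, 0, -1, -1, -1, 0, 0, 0, 0, 1, 1, 1, 0, 0, 0, 0, 0, 0, 0, 0, 0, 0,
    0, -1, -1, -1, 0, 0, 0, 0, 1, 1, 1, 0, 0, 0, 0, 0, 0, 0, 0, 0, 0, 0, -1, -1, -1, 0, 0, 0,
    0, 1, 1, 1]

lemma cyc_15 : cyclotomic 15 ℤ = toP [1, -1, 0, 1, -1, 1, 0, -1, 1] :=
  cyc_step 3 4 [1, 1, 1] _ (by norm_num) (by norm_num) cyc_three (by decide +kernel)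

lemma cyc_21 : cyclotomic 21 ℤ = toP [1, -1, 0, 1, -1, 0, 1, 0, -1, 1, 0, -1, 1] :=
  cyc_step 3 6 [1, 1, 1] _ (by norm_num) (by norm_num) cyc_three (by decide +kernel)

lemma cyc_885 : cyclotomic 885 ℤ = toP L885 :=
  cyc_step 15 58 _ _ (by norm_num) (by norm_num) cyc_15 (by decide +kernel)

lemma cyc_1239 : cyclotomic 1239 ℤ = toP L1239 :=
  cyc_step 21 58 _ _ (by norm_num) (by norm_num) cyc_21 (by decide +kernel)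

/-- the derivative of the cyclotomic polynomial of order `885` has at least seven real roots -/
theorem seven_le : 7 ≤ (derivative (cyclotomic 885 ℝ)).roots.card :=
  crit_lower 885 (by norm_num) L885 cyc_885 (-1, 1)
    [(-99, 100), (-95, 100), (-92, 100), (-1, 2), (0, 1), (9, 10), (1, 1)] (by decide +kernel)

/-- the derivative of the cyclotomic polynomial of order `1239` has at most five real roots,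
counted with multiplicity -/
theorem le_five : (derivative (cyclotomic 1239 ℝ)).roots.card ≤ 5 :=
  crit_upper 1239 (by norm_num) L1239 cyc_1239 (2 ^ 700) 2 3 (by decide +kernel)
    (by decide +kernel) (by decide +kernel) (by decide +kernel) (by decide +kernel)
    (by decide +kernel) (by decide +kernel) (by decide +kernel) (by decide +kernel)
    (by decide +kernel) (by decide +kernel)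

end Pool.Agent.R326
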