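import Pool.Agent.R326.RootUpper

/-!
Counting the real critical points of a cyclotomic polynomial given by its list of coefficients.
-/

set_option autoImplicit false

namespace Pool.Agent.R326

open Polynomial

/-- the list of the coefficients of `e f(-x)`, `e = 1` or `-1` -/
def altA (e : ℤ) : List ℤ → List ℤ
  | [] => []
  | a :: l => (e * a) :: altA (-e) l

lemma toP_altA (e : ℤ) (l : List ℤ) : toP (altA e l) = C e * (toP l).comp (-X) := by
  induction l generalizing e with
  | nil => simp [altA]
  | cons a l ih =>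
    simp only [altA, toP_cons, ih, add_comp, mul_comp, C_comp, X_comp, C_mul, C_neg]
    ring

/-- Horner evaluation -/
def evL (x : ℤ) : List ℤ → ℤ
  | [] => 0
  | a :: l => a + x * evL x l

lemma eval_toP (x : ℤ) (l : List ℤ) : (toP l).eval x = evL x l := by
  induction l with
  | nil => simp [evL]
  | cons a l ih => simp [evL, ih]

/-- upper bound for the number of roots in `(0, 1)` -/
theorem upper_list' (L : List ℤ) (B v : ℕ) (hlast : L.getLastD 0 ≠ 0)
    (h1 : hor 2 (posL L) < B) (h2 : hor 2 (negL L) < B)
    (hv : svar (sgns B L.length (hor (B + 1) (posL L)) (hor (B + 1) (negL L))) ≤ v) :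
    (((toP L).map (Int.castRingHom ℝ)).roots.filter (fun x => 0 < x ∧ x < 1)).card ≤ v := by
  have hne : L ≠ [] := by
    rintro rfl
    simp at hlast
  have e := List.dropLast_append_getLast hne
  have ha : L.getLast hne ≠ 0 := by
    rwa [List.getLastD_eq_getLast?, List.getLast?_eq_getLast_of_ne_nil hne] at hlast
  have := upper_list L.dropLast (L.getLast hne) ha B L.length v (by rw [e]; exact h1)
    (by rw [e]; exact h2)
    (by rw [List.length_dropLast]; have := List.length_pos_of_ne_nil hne; omega)
    (by rw [e]; exact hv)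
  rwa [e] at this

lemma norm_le_one_of_crit {n : ℕ} (hn : 0 < n) {x : ℝ}
    (hx : (derivative (cyclotomic n ℝ)).eval x = 0) : |x| ≤ 1 := by
  have h0 : 0 < (cyclotomic n ℂ).degree := degree_cyclotomic_pos n ℂ hn
  have hsub := Polynomial.rootSet_derivative_subset_convexHull_rootSet (P := cyclotomic n ℂ) h0
  by_cases hd : derivative (cyclotomic n ℂ) = 0
  · exact absurd (derivative_eq_zero.1 hd)
      (by rw [natDegree_cyclotomic]; exact (Nat.totient_pos.2 hn).ne')
  have hmem : (x : ℂ) ∈ (derivative (cyclotomic n ℂ)).rootSet ℂ := by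
    rw [mem_rootSet]
    refine ⟨hd, ?_⟩
    rw [← map_cyclotomic n (algebraMap ℝ ℂ), derivative_map, aeval_map_algebraMap]
    have : aeval (x : ℂ) (derivative (cyclotomic n ℝ)) =
        algebraMap ℝ ℂ ((derivative (cyclotomic n ℝ)).eval x) := by
      rw [← Complex.coe_algebraMap, aeval_algebraMap_apply_eq_algebraMap_eval]
    rw [this, hx, map_zero]
  have hball : convexHull ℝ ((cyclotomic n ℂ).rootSet ℂ) ⊆ Metric.closedBall (0 : ℂ) 1 := by
    apply convexHull_min _ (convex_closedBall _ _)
    intro z hz
    have hz' : (cyclotomic n ℂ).IsRoot z := by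
      rw [mem_rootSet] at hz
      simpa [IsRoot.def, aeval_def, eval_map] using hz.2
    have : NeZero (n : ℂ) := ⟨by exact_mod_cast hn.ne'⟩
    rw [isRoot_cyclotomic_iff] at hz'
    rw [mem_closedBall_zero_iff]
    exact (Complex.norm_eq_one_of_pow_eq_one hz'.pow_eq_one hn.ne').le
  have := hball (hsub hmem)
  rw [mem_closedBall_zero_iff] at this
  simpa using this

/-- upper bound for the number of real critical points of a cyclotomic polynomial, with
multiplicity -/
theorem crit_upper (n : ℕ) (hn : 0 < n) (L : List ℤ) (hL : cyclotomic n ℤ = toP L) (B v w : ℕ)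
    (hlast : (derL L).getLastD 0 ≠ 0) (hlast' : (altA 1 (derL L)).getLastD 0 ≠ 0)
    (e0 : evL 0 (derL L) ≠ 0) (e1 : evL 1 (derL L) ≠ 0) (e2 : evL (-1) (derL L) ≠ 0)
    (h1 : hor 2 (posL (derL L)) < B) (h2 : hor 2 (negL (derL L)) < B)
    (hv : svar (sgns B (derL L).length (hor (B + 1) (posL (derL L)))
      (hor (B + 1) (negL (derL L)))) ≤ v)
    (h1' : hor 2 (posL (altA 1 (derL L))) < B) (h2' : hor 2 (negL (altA 1 (derL L))) < B)
    (hw : svar (sgns B (altA 1 (derL L)).length (hor (B + 1) (posL (altA 1 (derL L))))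
      (hor (B + 1) (negL (altA 1 (derL L))))) ≤ w) :
    (derivative (cyclotomic n ℝ)).roots.card ≤ v + w := by
  have hPL : derivative (cyclotomic n ℝ) = (toP (derL L)).map (Int.castRingHom ℝ) := by
    rw [toP_derL, ← hL, ← derivative_map, map_cyclotomic_int]
  have hP0 : derivative (cyclotomic n ℝ) ≠ 0 := by
    intro hd
    exact absurd (derivative_eq_zero.1 hd)
      (by rw [natDegree_cyclotomic]; exact (Nat.totient_pos.2 hn).ne')
  have ev : ∀ x : ℤ, (derivative (cyclotomic n ℝ)).eval (x : ℝ) = evL x (derL L) := by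
    intro x
    rw [hPL, ← eval_toP, eval_intCast_map]
    simp
  set P := derivative (cyclotomic n ℝ) with hP
  have hup := upper_list' (derL L) B v hlast h1 h2 hv
  rw [← hPL] at hup
  have hup' := upper_list' (altA 1 (derL L)) B w hlast' h1' h2' hw
  have hneg : (toP (altA 1 (derL L))).map (Int.castRingHom ℝ) = P.comp (-X) := by
    rw [toP_altA, hPL, C_1, one_mul, Polynomial.map_comp]
    simp
  rw [hneg, roots_comp_neg_X, Multiset.filter_map, Multiset.card_map] at hup'
  have hsplit : P.roots = P.roots.filter (fun x => 0 < x ∧ x < 1) +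
      P.roots.filter (fun x => ¬ (0 < x ∧ x < 1)) := (Multiset.filter_add_not _ _).symm
  have hrest : P.roots.filter (fun x => ¬ (0 < x ∧ x < 1)) =
      P.roots.filter ((fun x => 0 < x ∧ x < 1) ∘ (fun x => -x)) := by
    apply Multiset.filter_congr
    intro x hx
    have hroot : P.eval x = 0 := (mem_roots hP0).1 hx
    have hle := abs_le.1 (norm_le_one_of_crit hn hroot)
    have n0 : x ≠ 0 := by
      rintro rfl
      have := ev 0
      rw [Int.cast_zero, hroot] at this
      exact e0 (by exact_mod_cast this.symm)
    have n1 : x ≠ 1 := by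
      rintro rfl
      have := ev 1
      rw [Int.cast_one, hroot] at this
      exact e1 (by exact_mod_cast this.symm)
    have n2 : x ≠ -1 := by
      rintro rfl
      have := ev (-1)
      rw [Int.cast_neg, Int.cast_one, hroot] at this
      exact e2 (by exact_mod_cast this.symm)
    simp only [Function.comp]
    constructor
    · intro h
      have hx0 : x < 0 := by
        by_contra hcon
        push Not at hcon
        exact h ⟨lt_of_le_of_ne hcon n0.symm, lt_of_le_of_ne hle.2 n1⟩
      exact ⟨by linarith, by have := lt_of_le_of_ne hle.1 n2.symm; linarith⟩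
    · rintro ⟨h3, h4⟩ ⟨h5, h6⟩
      linarith
  rw [hsplit, Multiset.card_add, hrest]
  exact Nat.add_le_add hup hup'

/-- lower bound for the number of real critical points of a cyclotomic polynomial -/
theorem crit_lower (n : ℕ) (hn : 0 < n) (L : List ℤ) (hL : cyclotomic n ℤ = toP L)
    (a : ℤ × ℤ) (l : List (ℤ × ℤ)) (h : altB (derL L) (a :: l) = true) :
    l.length ≤ (derivative (cyclotomic n ℝ)).roots.card := by
  have hPL : derivative (cyclotomic n ℝ) = (toP (derL L)).map (Int.castRingHom ℝ) := by
    rw [toP_derL, ← hL, ← derivative_map, map_cyclotomic_int]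
  have hP0 : derivative (cyclotomic n ℝ) ≠ 0 := by
    intro hd
    exact absurd (derivative_eq_zero.1 hd)
      (by rw [natDegree_cyclotomic]; exact (Nat.totient_pos.2 hn).ne')
  have h0 : toP (derL L) ≠ 0 := by
    intro h0
    rw [hPL, h0, Polynomial.map_zero] at hP0
    exact hP0 rfl
  have := lower_list (derL L) h0 a l h
  rwa [← hPL] at this

end Pool.Agent.R326
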