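import Pool.Agent.R326.Euler

/-!
The polynomials `n! P_n` in a commutative ring, `P_n` the D'Arcais polynomials, and the recurrence
through the Euler function.
-/

set_option autoImplicit false

namespace Pool.Agent.R326

open Finset

/-- the value at `x` of `n!` times the `n`-th D'Arcais polynomial -/
noncomputable def av {S : Type*} [CommRing S] (x : S) : ℕ → S
  | 0 => 1
  | n + 1 => x * ∑ k : Fin (n + 1), (ArithmeticFunction.sigma 1 (k + 1) : S) *
      (n.descFactorial k : S) * av x (n - k)

lemma av_zero {S : Type*} [CommRing S] (x : S) : av x 0 = 1 := by rw [av]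

lemma av_succ {S : Type*} [CommRing S] (x : S) (n : ℕ) :
    av x (n + 1) = x * ∑ k ∈ range (n + 1), (ArithmeticFunction.sigma 1 (k + 1) : S) *
      (n.descFactorial k : S) * av x (n - k) := by
  rw [av, Finset.sum_range (fun k => (ArithmeticFunction.sigma 1 (k + 1) : S) *
      (n.descFactorial k : S) * av x (n - k))]

lemma av_map {S T : Type*} [CommRing S] [CommRing T] (φ : S →+* T) (x : S) (n : ℕ) :
    φ (av x n) = av (φ x) n := by
  induction n using Nat.strong_induction_on with
  | _ n ih =>
    cases n with
    | zero => simp [av_zero]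
    | succ n =>
      rw [av_succ, av_succ, map_mul, map_sum]
      congr 1
      apply sum_congr rfl
      intro k hk
      rw [map_mul, map_mul, map_natCast, map_natCast, ih (n - k) (by omega)]

/-- the recurrence in a `ℚ`-algebra -/
lemma miller_aux {S : Type*} [CommRing S] [Algebra ℚ S] (x : S) (n : ℕ) :
    av x (n + 1) = ∑ k ∈ range (n + 1), (eu (k + 1) : S) *
      (((k : S) + 1) * (1 - x) - (n + 1)) * (n.descFactorial k : S) * av x (n - k) := by
  set G : PowerSeries S := PowerSeries.mk fun n => algebraMap ℚ S (1 / (n.factorial : ℚ)) * av x n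
    with hG
  set Sg : PowerSeries S := PowerSeries.mk fun n => (ArithmeticFunction.sigma 1 (n + 1) : S)
    with hSg
  set F : PowerSeries S := PowerSeries.mk fun n => (eu n : S) with hF
  have key : ∀ m k : ℕ, k ≤ m → algebraMap ℚ S (1 / ((m - k).factorial : ℚ)) =
      algebraMap ℚ S (1 / (m.factorial : ℚ)) * (m.descFactorial k : S) := by
    intro m k hk
    rw [← map_natCast (algebraMap ℚ S) (m.descFactorial k), ← map_mul]
    congr 1
    have h := Nat.factorial_mul_descFactorial hk
    have h1 : ((m - k).factorial : ℚ) ≠ 0 := by exact_mod_cast Nat.factorial_ne_zero _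
    have h2 : (m.factorial : ℚ) ≠ 0 := by exact_mod_cast Nat.factorial_ne_zero _
    field_simp
    rw [← h]
    push_cast
    ring
  have keys : ∀ m : ℕ, algebraMap ℚ S (1 / ((m + 1).factorial : ℚ)) * ((m : S) + 1) =
      algebraMap ℚ S (1 / (m.factorial : ℚ)) := by
    intro m
    have : ((m : S) + 1) = algebraMap ℚ S ((m : ℚ) + 1) := by simp
    rw [this, ← map_mul]
    congr 1
    rw [Nat.factorial_succ]
    have h2 : (m.factorial : ℚ) ≠ 0 := by exact_mod_cast Nat.factorial_ne_zero _
    have h3 : (m : ℚ) + 1 ≠ 0 := by positivity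
    push_cast
    field_simp
  -- the two differential equations
  have dG : PowerSeries.derivative S G = PowerSeries.C x * (Sg * G) := by
    ext m
    rw [PowerSeries.coeff_derivative, PowerSeries.coeff_C_mul, PowerSeries.coeff_mul,
      Finset.Nat.sum_antidiagonal_eq_sum_range_succ_mk]
    simp only [hG, hSg, PowerSeries.coeff_mk]
    rw [mul_right_comm, keys, av_succ, mul_left_comm]
    congr 1
    rw [mul_sum]
    apply sum_congr rfl
    intro k hk
    rw [key m k (by have := mem_range.1 hk; omega)]
    ring
  have dF : PowerSeries.derivative S F = -(Sg * F) := by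
    ext m
    rw [PowerSeries.coeff_derivative, map_neg, PowerSeries.coeff_mul,
      Finset.Nat.sum_antidiagonal_eq_sum_range_succ_mk]
    simp only [hF, hSg, PowerSeries.coeff_mk]
    have h := congrArg (Int.cast : ℤ → S) (eu_rec m)
    push_cast at h
    rw [mul_comm, h]
  have main : F * PowerSeries.derivative S G = -(PowerSeries.C x *
      (PowerSeries.derivative S F * G)) := by
    rw [dG, dF]; ring
  -- coefficients
  have hm := congrArg (PowerSeries.coeff n) main
  rw [map_neg, PowerSeries.coeff_C_mul, PowerSeries.coeff_mul, PowerSeries.coeff_mul,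
    Finset.Nat.sum_antidiagonal_eq_sum_range_succ_mk,
    Finset.Nat.sum_antidiagonal_eq_sum_range_succ_mk] at hm
  simp only [PowerSeries.coeff_derivative] at hm
  simp only [hF, hG, PowerSeries.coeff_mk] at hm
  rw [sum_range_succ'] at hm
  have hfac : algebraMap ℚ S (n.factorial : ℚ) * algebraMap ℚ S (1 / (n.factorial : ℚ)) = 1 := by
    rw [← map_mul, mul_one_div_cancel (by exact_mod_cast Nat.factorial_ne_zero _), map_one]
  have e0 : (eu 0 : S) = 1 := by rw [eu_zero]; simp
  have hm2 := congrArg (fun z => algebraMap ℚ S (n.factorial : ℚ) * z) hm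
  simp only [Nat.sub_zero, e0, one_mul] at hm2
  rw [mul_add] at hm2
  have t0 : algebraMap ℚ S (n.factorial : ℚ) *
      (algebraMap ℚ S (1 / ((n + 1).factorial : ℚ)) * av x (n + 1) * ((n : S) + 1)) =
      av x (n + 1) := by
    rw [mul_right_comm, keys, ← mul_assoc, hfac, one_mul]
  rw [t0] at hm2
  have hm3 : av x (n + 1) = -(algebraMap ℚ S (n.factorial : ℚ) * (x * ∑ k ∈ range n.succ,
      (eu (k + 1) : S) * ((k : S) + 1) * (algebraMap ℚ S (1 / ((n - k).factorial : ℚ)) *
        av x (n - k)))) - algebraMap ℚ S (n.factorial : ℚ) * ∑ k ∈ range n, (eu (k + 1) : S) *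
      (algebraMap ℚ S (1 / ((n - (k + 1) + 1).factorial : ℚ)) * av x (n - (k + 1) + 1) *
        (((n - (k + 1) : ℕ) : S) + 1)) := by
    rw [eq_sub_iff_add_eq, add_comm, hm2]
    ring
  rw [hm3]
  have s1 : algebraMap ℚ S (n.factorial : ℚ) * (x * ∑ k ∈ range n.succ,
      (eu (k + 1) : S) * ((k : S) + 1) * (algebraMap ℚ S (1 / ((n - k).factorial : ℚ)) *
        av x (n - k))) = ∑ k ∈ range (n + 1), (eu (k + 1) : S) * (((k : S) + 1) * x) *
        (n.descFactorial k : S) * av x (n - k) := by
    rw [mul_left_comm, mul_sum, mul_sum]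
    apply sum_congr rfl
    intro k hk
    rw [key n k (by have := mem_range.1 hk; omega)]
    linear_combination (x * ((eu (k + 1) : S) * ((k : S) + 1) * ((n.descFactorial k : S) *
      av x (n - k)))) * hfac
  have s2 : algebraMap ℚ S (n.factorial : ℚ) * ∑ k ∈ range n, (eu (k + 1) : S) *
      (algebraMap ℚ S (1 / ((n - (k + 1) + 1).factorial : ℚ)) * av x (n - (k + 1) + 1) *
        (((n - (k + 1) : ℕ) : S) + 1)) = ∑ k ∈ range (n + 1), (eu (k + 1) : S) *
        ((n : S) - k) * (n.descFactorial k : S) * av x (n - k) := by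
    rw [sum_range_succ, sub_self, mul_zero, zero_mul, zero_mul, add_zero, mul_sum]
    apply sum_congr rfl
    intro k hk
    have hk' := mem_range.1 hk
    rw [show n - (k + 1) + 1 = n - k by omega]
    have hc : (((n - (k + 1) : ℕ) : S) + 1) = (n : S) - k := by
      have : n - k = (n - (k + 1)) + 1 := by omega
      rw [← Nat.cast_sub hk'.le, this]
      push_cast; ring
    rw [hc, key n k hk'.le]
    linear_combination ((eu (k + 1) : S) * ((n.descFactorial k : S) *
      av x (n - k) * ((n : S) - k))) * hfac
  rw [s1, s2, ← sum_neg_distrib, ← sum_sub_distrib]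
  apply sum_congr rfl
  intro k _
  ring

/-- the recurrence in an arbitrary commutative ring -/
lemma miller {S : Type*} [CommRing S] (x : S) (n : ℕ) :
    av x (n + 1) = ∑ k ∈ range (n + 1), (eu (k + 1) : S) *
      (((k : S) + 1) * (1 - x) - (n + 1)) * (n.descFactorial k : S) * av x (n - k) := by
  have huniv : av (Polynomial.X : Polynomial ℤ) (n + 1) = ∑ k ∈ range (n + 1),
      (eu (k + 1) : Polynomial ℤ) * (((k : Polynomial ℤ) + 1) * (1 - Polynomial.X) -
        ((n : Polynomial ℤ) + 1)) *
      (n.descFactorial k : Polynomial ℤ) * av Polynomial.X (n - k) := by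
    have hinj : Function.Injective (Polynomial.mapRingHom (Int.castRingHom ℚ)) :=
      Polynomial.map_injective _ Int.cast_injective
    apply hinj
    have h := miller_aux (Polynomial.X : Polynomial ℚ) n
    have e : ∀ m, (Polynomial.mapRingHom (Int.castRingHom ℚ)) (av Polynomial.X m) =
        av (Polynomial.X : Polynomial ℚ) m := by
      intro m
      rw [av_map]
      simp
    rw [e, h, map_sum]
    apply sum_congr rfl
    intro k _
    rw [map_mul, e]
    simp
  have h := congrArg (Polynomial.aeval x) huniv
  have e : ∀ m, Polynomial.aeval x (av (Polynomial.X : Polynomial ℤ) m) = av x m := by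
    intro m
    have := av_map (Polynomial.aeval x : Polynomial ℤ →ₐ[ℤ] S).toRingHom Polynomial.X m
    simpa using this
  rw [e, map_sum] at h
  rw [h]
  apply sum_congr rfl
  intro k _
  rw [map_mul, e]
  simp

end Pool.Agent.R326
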