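import Pool.Agent.R326.DArcais

/-!
Valuations at a prime above two of the D'Arcais polynomials.
-/

set_option autoImplicit false

namespace Pool.Agent.R326

open Finset

lemma two_pow_dvd_desc (n k : ℕ) (hk : k ≤ n) :
    2 ^ (n / 2 - (n - k) / 2) ∣ n.descFactorial k := by
  induction k with
  | zero => simp
  | succ k ih =>
    rw [Nat.descFactorial_succ]
    have h := ih (by omega)
    rcases Nat.even_or_odd (n - k) with he | ho
    · obtain ⟨m, hm⟩ := he
      have : n / 2 - (n - (k + 1)) / 2 = 1 + (n / 2 - (n - k) / 2) := by omega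
      rw [this, pow_add]
      refine mul_dvd_mul ?_ h
      rw [pow_one, hm]
      exact ⟨m, by ring⟩
    · obtain ⟨m, hm⟩ := ho
      have : n / 2 - (n - (k + 1)) / 2 = n / 2 - (n - k) / 2 := by omega
      rw [this]
      exact Dvd.dvd.mul_left h _

section

variable {S : Type*} [CommRing S]

lemma desc_dvd_two {z u : S} (h2 : (2 : S) = z ^ 2 * u) (n k : ℕ) (hk : k ≤ n) :
    z ^ (2 * (n / 2 - (n - k) / 2)) ∣ (n.descFactorial k : S) := by
  obtain ⟨w, hw⟩ := two_pow_dvd_desc n k hk
  rw [hw]
  push_cast
  rw [h2, mul_pow, ← pow_mul, mul_assoc]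
  exact dvd_mul_right _ _

/-- the case `x = 1 + z`, `2 = z² u` -/
lemma caseA {z u : S} (h2 : (2 : S) = z ^ 2 * u) (n : ℕ) :
    ∃ E, av (1 + z) n = z ^ (n / 2) * (1 + z * E) := by
  induction n using Nat.strong_induction_on with
  | _ n ih =>
    cases n with
    | zero => exact ⟨0, by simp [av_zero]⟩
    | succ n =>
      rw [miller, sum_range_succ']
      have hz : z ∣ (2 : S) := ⟨z * u, by rw [h2]; ring⟩
      have h4 : ∀ k ∈ range n, z ^ ((n + 1) / 2 + 1) ∣ (eu (k + 1 + 1) : S) *
          (((k + 1 : ℕ) + 1) * (1 - (1 + z)) - (n + 1)) * (n.descFactorial (k + 1) : S) *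
          av (1 + z) (n - (k + 1)) := by
        intro k hk
        have hk' := mem_range.1 hk
        obtain ⟨E, hE⟩ := ih (n - (k + 1)) (by omega)
        have hd := desc_dvd_two h2 n (k + 1) (by omega)
        have ha : z ^ ((n - (k + 1)) / 2) ∣ av (1 + z) (n - (k + 1)) := ⟨_, hE⟩
        have hda := mul_dvd_mul hd ha
        rw [← pow_add] at hda
        rw [mul_assoc, mul_assoc]
        apply Dvd.dvd.mul_left
        rcases Nat.even_or_odd n with he | ho
        · obtain ⟨m, hm⟩ := he
          exact Dvd.dvd.mul_left ((pow_dvd_pow z (by omega)).trans hda) _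
        · obtain ⟨m, hm⟩ := ho
          rcases Nat.eq_zero_or_pos k with hk0 | hk0
          · have h5 : z ^ 2 ∣ (((k + 1 : ℕ) : S) + 1) * (1 - (1 + z)) - ((n : S) + 1) := by
              refine ⟨-(u * (z + m + 1)), ?_⟩
              rw [hk0, hm]
              push_cast
              linear_combination (-(z + m + 1)) * h2
            have h6 := mul_dvd_mul h5 hda
            rw [← pow_add] at h6
            exact (pow_dvd_pow z (by omega)).trans h6
          · have h5 : z ^ 1 ∣ (((k + 1 : ℕ) : S) + 1) * (1 - (1 + z)) - ((n : S) + 1) := by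
              refine ⟨-((k + 1 + 1) + z * u * (m + 1)), ?_⟩
              rw [hm]
              push_cast
              linear_combination (-(m + 1 : S)) * h2
            have h6 := mul_dvd_mul h5 hda
            rw [← pow_add] at h6
            exact (pow_dvd_pow z (by omega)).trans h6
      obtain ⟨T, hT⟩ := dvd_sum h4
      rw [hT]
      obtain ⟨E, hE⟩ := ih n (by omega)
      have e1 : (eu (0 + 1) : S) = -1 := by rw [zero_add, eu_one]; simp
      rw [e1, Nat.sub_zero, hE]
      rcases Nat.even_or_odd n with he | ho
      · obtain ⟨m, hm⟩ := he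
        have h1 : n / 2 = m := by omega
        have h3 : (n + 1) / 2 = m := by omega
        rw [h1, h3, hm]
        refine ⟨T + E + 1 + z * E + z * u * m + z * u * m * z * E, ?_⟩
        push_cast
        simp only [Nat.descFactorial_zero, Nat.cast_one]
        rw [pow_succ]
        linear_combination (z ^ m * (1 + z * E) * m) * h2
      · obtain ⟨m, hm⟩ := ho
        have h1 : n / 2 = m := by omega
        have h3 : (n + 1) / 2 = m + 1 := by omega
        rw [h1, h3, hm]
        refine ⟨T + E + u * (m + 1) * (1 + z * E), ?_⟩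
        push_cast
        simp only [Nat.descFactorial_zero, Nat.cast_one]
        rw [pow_succ, pow_succ]
        linear_combination (z ^ m * (1 + z * E) * (m + 1)) * h2

/-- the case `x = z`, `2 = z² u` -/
lemma caseB {z u : S} (h2 : (2 : S) = z ^ 2 * u) (n : ℕ) :
    ∃ E, av z n = z ^ ((n + 1) / 2) * (1 + z * E) := by
  induction n using Nat.strong_induction_on with
  | _ n ih =>
    cases n with
    | zero => exact ⟨0, by simp [av_zero]⟩
    | succ n =>
      rw [miller, sum_range_succ']
      have h4 : ∀ k ∈ range n, z ^ ((n + 1 + 1) / 2 + 1) ∣ (eu (k + 1 + 1) : S) *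
          (((k + 1 : ℕ) + 1) * (1 - z) - (n + 1)) * (n.descFactorial (k + 1) : S) *
          av z (n - (k + 1)) := by
        intro k hk
        have hk' := mem_range.1 hk
        obtain ⟨E, hE⟩ := ih (n - (k + 1)) (by omega)
        have hd := desc_dvd_two h2 n (k + 1) (by omega)
        have ha : z ^ ((n - (k + 1) + 1) / 2) ∣ av z (n - (k + 1)) := ⟨_, hE⟩
        have hda := mul_dvd_mul hd ha
        rw [← pow_add] at hda
        rw [mul_assoc, mul_assoc]
        apply Dvd.dvd.mul_left
        rcases Nat.even_or_odd n with he | ho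
        · obtain ⟨m, hm⟩ := he
          rcases Nat.even_or_odd k with hk2 | hk2
          · exact Dvd.dvd.mul_left ((pow_dvd_pow z (by obtain ⟨j, hj⟩ := hk2; omega)).trans hda) _
          · obtain ⟨j, hj⟩ := hk2
            have h5 : z ^ 1 ∣ (((k + 1 : ℕ) : S) + 1) * (1 - z) - ((n : S) + 1) := by
              refine ⟨-(k + 1 + 1) + z * u * (j + 1 - m), ?_⟩
              rw [hm, hj]
              push_cast
              linear_combination (j + 1 - m : S) * h2
            have h6 := mul_dvd_mul h5 hda
            rw [← pow_add] at h6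
            exact (pow_dvd_pow z (by omega)).trans h6
        · obtain ⟨m, hm⟩ := ho
          rcases Nat.even_or_odd k with hk2 | hk2
          · obtain ⟨j, hj⟩ := hk2
            have h5 : z ^ 2 ∣ (((k + 1 : ℕ) : S) + 1) * (1 - z) - ((n : S) + 1) := by
              refine ⟨u * (j - m - z * (j + 1)), ?_⟩
              rw [hm, hj]
              push_cast
              linear_combination (j - m - z * (j + 1) : S) * h2
            have h6 := mul_dvd_mul h5 hda
            rw [← pow_add] at h6
            exact (pow_dvd_pow z (by omega)).trans h6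
          · exact Dvd.dvd.mul_left ((pow_dvd_pow z (by obtain ⟨j, hj⟩ := hk2; omega)).trans hda) _
      obtain ⟨T, hT⟩ := dvd_sum h4
      rw [hT]
      obtain ⟨E, hE⟩ := ih n (by omega)
      have e1 : (eu (0 + 1) : S) = -1 := by rw [zero_add, eu_one]; simp
      rw [e1, Nat.sub_zero, hE]
      rcases Nat.even_or_odd n with he | ho
      · obtain ⟨m, hm⟩ := he
        have h1 : (n + 1) / 2 = m := by omega
        have h3 : (n + 1 + 1) / 2 = m + 1 := by omega
        rw [h1, h3, hm]
        refine ⟨T + E + u * m * (1 + z * E), ?_⟩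
        push_cast
        simp only [Nat.descFactorial_zero, Nat.cast_one]
        rw [pow_succ, pow_succ]
        linear_combination (z ^ m * (1 + z * E) * m) * h2
      · obtain ⟨m, hm⟩ := ho
        have h1 : (n + 1) / 2 = m + 1 := by omega
        have h3 : (n + 1 + 1) / 2 = m + 1 := by omega
        rw [h1, h3, hm]
        refine ⟨T + E + (1 + z * u * m) * (1 + z * E), ?_⟩
        push_cast
        simp only [Nat.descFactorial_zero, Nat.cast_one]
        rw [pow_succ, pow_succ]
        linear_combination (z ^ m * z * (1 + z * E) * m) * h2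

end

end Pool.Agent.R326
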