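import Pool.Agent.R326.DArcais

/-!
Valuations at a prime above three of the D'Arcais polynomials.
-/

set_option autoImplicit false

namespace Pool.Agent.R326

open Finset

lemma three_dvd_desc (m j : ℕ) : 3 ∣ m.descFactorial (j + 3) :=
  ((Nat.dvd_factorial (by norm_num) (by omega)).trans (Nat.factorial_dvd_descFactorial m (j + 3)))

/-- residue classes with `x² = -1` in characteristic three -/
lemma caseC {F : Type*} [Field F] (h3 : (3 : F) = 0) {x : F} (hx : x ^ 2 = -1) (j : ℕ) :
    av x (3 * j) ≠ 0 ∧ av x (3 * j + 1) = x * av x (3 * j) ∧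
      av x (3 * j + 2) = -av x (3 * j) ∧ av x (3 * j + 3) = x * av x (3 * j) := by
  have hx0 : x ≠ 0 := by
    intro h
    rw [h] at hx
    have : (1 : F) = 0 := by linear_combination hx
    exact one_ne_zero this
  have step : ∀ n, av x (n + 2) = ((n : F) + 1 + x) * av x (n + 1) +
      ((n : F) + 2 * x) * (n + 1) * av x n := by
    intro n
    rw [miller, sum_range_succ', sum_range_succ']
    have hz : ∀ k ∈ range n, (eu (k + 1 + 1 + 1) : F) *
        (((k + 1 + 1 : ℕ) + 1) * (1 - x) - ((n + 1 : ℕ) + 1)) *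
        ((n + 1).descFactorial (k + 1 + 1) : F) *
        av x (n + 1 - (k + 1 + 1)) = 0 := by
      intro k _
      cases k with
      | zero => simp [eu_three]
      | succ k =>
        obtain ⟨w, hw⟩ := three_dvd_desc (n + 1) k
        have : ((n + 1).descFactorial (k + 1 + 1 + 1) : F) = 0 := by
          rw [show k + 1 + 1 + 1 = k + 3 by ring, hw]
          push_cast
          rw [h3, zero_mul]
        rw [this]; ring
    rw [sum_eq_zero hz]
    have e1 : (eu (0 + 1) : F) = -1 := by rw [zero_add, eu_one]; simp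
    have e2 : (eu (0 + 1 + 1) : F) = -1 := by
      rw [show 0 + 1 + 1 = 2 by rfl, eu_two]; simp
    rw [e1, e2]
    simp only [zero_add, Nat.descFactorial_one, Nat.descFactorial_zero, Nat.add_sub_cancel,
      Nat.sub_zero]
    push_cast
    ring
  have step1 : ∀ n, 3 ∣ n → av x (n + 1) = x * av x n := by
    intro n hn
    obtain ⟨m, rfl⟩ := hn
    cases m with
    | zero =>
      rw [av_succ]; simp
    | succ m =>
      rw [show 3 * (m + 1) + 1 = (3 * m + 2) + 2 by ring, step,
        show 3 * (m + 1) = 3 * m + 2 + 1 by ring]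
      push_cast
      linear_combination ((m + 1) * av x (3 * m + 2 + 1) + (3 * m + 2 + 2 * x) * (m + 1) *
        av x (3 * m + 2)) * h3
  induction j with
  | zero =>
    refine ⟨by simp [av_zero], by simpa using step1 0 (by norm_num), ?_, ?_⟩
    · have h := step 0
      have h' := step1 0 (by norm_num)
      simp only [zero_add, mul_zero, av_zero] at *
      rw [h, h']
      push_cast
      linear_combination hx + x * h3
    · have h := step 1
      have h' := step 0
      have h'' := step1 0 (by norm_num)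
      simp only [zero_add, mul_zero, av_zero] at *
      rw [show 3 = 1 + 2 by rfl, h, h', h'']
      push_cast
      linear_combination (9 + x) * hx + (-3 + x * 2) * h3
  | succ j ih =>
    obtain ⟨i0, i1, i2, i3⟩ := ih
    have a0 : av x (3 * (j + 1)) ≠ 0 := by
      rw [show 3 * (j + 1) = 3 * j + 3 by ring, i3]
      exact mul_ne_zero hx0 i0
    have a1 := step1 (3 * (j + 1)) ⟨j + 1, rfl⟩
    have a2 : av x (3 * (j + 1) + 2) = -av x (3 * (j + 1)) := by
      rw [step, a1]
      push_cast
      linear_combination av x (3 * (j + 1)) * hx + (av x (3 * (j + 1)) * (x * (j + 1) +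
        x + (j + 1) * (3 * (j + 1) + 1 + 2 * x))) * h3
    refine ⟨a0, a1, a2, ?_⟩
    rw [show 3 * (j + 1) + 3 = (3 * (j + 1) + 1) + 2 by ring, step,
      show 3 * (j + 1) + 1 + 1 = 3 * (j + 1) + 2 by ring, a2, a1]
    push_cast
    linear_combination (av x (3 * (j + 1)) * (2 * (3 * (j + 1) + 2))) * hx +
      (av x (3 * (j + 1)) * (-(j + 1) - 2 - 2 * (j + 1)
        + x * (3 * (j + 1) * (j + 1) + 3 * (j + 1)) )) * h3

/-! ### `x = 3 y`, `y² ≡ -1` modulo three -/

lemma three_pow_dvd_desc (n k : ℕ) (hk : k ≤ n) :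
    3 ^ (n / 3 - (n - k) / 3) ∣ n.descFactorial k := by
  induction k with
  | zero => simp
  | succ k ih =>
    rw [Nat.descFactorial_succ]
    have h := ih (by omega)
    by_cases he : (n - k) % 3 = 0
    · have : n / 3 - (n - (k + 1)) / 3 = 1 + (n / 3 - (n - k) / 3) := by omega
      rw [this, pow_add]
      refine mul_dvd_mul ?_ h
      rw [pow_one]
      exact Nat.dvd_of_mod_eq_zero he
    · have : n / 3 - (n - (k + 1)) / 3 = n / 3 - (n - k) / 3 := by omega
      rw [this]
      exact Dvd.dvd.mul_left h _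

section

variable {S : Type*} [CommRing S]

lemma desc_dvd_three (n k a : ℕ) (ha : k ≤ n → a ≤ n / 3 - (n - k) / 3) :
    (3 : S) ^ a ∣ (n.descFactorial k : S) := by
  by_cases hk : k ≤ n
  · obtain ⟨w, hw⟩ := (pow_dvd_pow 3 (ha hk)).trans (three_pow_dvd_desc n k hk)
    rw [hw]
    push_cast
    exact dvd_mul_right _ _
  · rw [Nat.descFactorial_eq_zero_iff_lt.2 (by omega)]
    simp

lemma desc_norm0 (m j : ℕ) : ∃ w : S, ((3 * m).descFactorial (3 * j) : S) =
    3 ^ j * ((-1) ^ j * (m.descFactorial j : S) + 3 * w) := by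
  induction j with
  | zero => exact ⟨0, by simp⟩
  | succ j ih =>
    obtain ⟨w, hw⟩ := ih
    rcases lt_or_ge j m with h | h
    · obtain ⟨t, ht⟩ := Nat.exists_eq_add_of_lt h
      refine ⟨-((t + 1 : S) * w) + (3 * t ^ 2 + 3 * t + 1) * (t + 1) *
        ((-1) ^ j * (m.descFactorial j : S) + 3 * w), ?_⟩
      rw [show 3 * (j + 1) = 3 * j + 1 + 1 + 1 by ring, Nat.descFactorial_succ,
        Nat.descFactorial_succ, Nat.descFactorial_succ, Nat.descFactorial_succ,
        show 3 * m - (3 * j + 1 + 1) = 3 * t + 1 by omega,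
        show 3 * m - (3 * j + 1) = 3 * t + 2 by omega,
        show 3 * m - (3 * j) = 3 * t + 3 by omega,
        show m - j = t + 1 by omega]
      push_cast
      rw [hw]
      ring
    · refine ⟨0, ?_⟩
      rw [Nat.descFactorial_eq_zero_iff_lt.2 (by omega), Nat.descFactorial_eq_zero_iff_lt.2
        (by omega)]
      simp

lemma desc_norm1 (m j : ℕ) : ∃ w : S, ((3 * m + 1).descFactorial (3 * j) : S) =
    3 ^ j * ((-1) ^ j * (m.descFactorial j : S) + 3 * w) := by
  induction j with
  | zero => exact ⟨0, by simp⟩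
  | succ j ih =>
    obtain ⟨w, hw⟩ := ih
    rcases lt_or_ge j m with h | h
    · obtain ⟨t, ht⟩ := Nat.exists_eq_add_of_lt h
      refine ⟨-((t + 1 : S) * w) + (3 * t ^ 2 + 6 * t + 3) * (t + 1) *
        ((-1) ^ j * (m.descFactorial j : S) + 3 * w), ?_⟩
      rw [show 3 * (j + 1) = 3 * j + 1 + 1 + 1 by ring, Nat.descFactorial_succ,
        Nat.descFactorial_succ, Nat.descFactorial_succ, Nat.descFactorial_succ,
        show 3 * m + 1 - (3 * j + 1 + 1) = 3 * t + 2 by omega,
        show 3 * m + 1 - (3 * j + 1) = 3 * t + 3 by omega,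
        show 3 * m + 1 - (3 * j) = 3 * t + 4 by omega,
        show m - j = t + 1 by omega]
      push_cast
      rw [hw]
      ring
    · refine ⟨0, ?_⟩
      rw [Nat.descFactorial_eq_zero_iff_lt.2 (by omega), Nat.descFactorial_eq_zero_iff_lt.2
        (by omega)]
      simp

lemma desc_norm1' (m j : ℕ) : ∃ w : S, ((3 * m + 1).descFactorial (3 * j + 1) : S) =
    3 ^ j * ((-1) ^ j * (m.descFactorial j : S) + 3 * w) := by
  obtain ⟨w, hw⟩ := desc_norm0 (S := S) m j
  refine ⟨w + m * ((-1) ^ j * (m.descFactorial j : S) + 3 * w), ?_⟩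
  rw [Nat.succ_descFactorial_succ]
  push_cast
  rw [hw]
  ring

lemma desc_norm2' (m j : ℕ) : ∃ w : S, ((3 * m + 2).descFactorial (3 * j + 2) : S) =
    3 ^ j * (2 * (-1) ^ j * (m.descFactorial j : S) + 3 * w) := by
  obtain ⟨w, hw⟩ := desc_norm0 (S := S) m j
  refine ⟨2 * w + 3 * (m ^ 2 + m) * ((-1) ^ j * (m.descFactorial j : S) + 3 * w), ?_⟩
  rw [Nat.succ_descFactorial_succ, Nat.succ_descFactorial_succ]
  push_cast
  rw [hw]
  ring

lemma sum_three (f : ℕ → S) (m : ℕ) : ∑ k ∈ range (3 * (m + 1)), f k =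
    ∑ j ∈ range (m + 1), (f (3 * j) + f (3 * j + 1) + f (3 * j + 2)) := by
  induction m with
  | zero => simp [sum_range_succ]
  | succ m ih =>
    rw [show 3 * (m + 1 + 1) = 3 * (m + 1) + 1 + 1 + 1 by ring, sum_range_succ, sum_range_succ,
      sum_range_succ, sum_range_succ _ (m + 1), ih]
    ring

lemma av_succ' (x : S) (n N : ℕ) (hN : n + 1 ≤ N) :
    av x (n + 1) = x * ∑ k ∈ range N, (ArithmeticFunction.sigma 1 (k + 1) : S) *
      (n.descFactorial k : S) * av x (n - k) := by
  rw [av_succ]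
  congr 1
  apply sum_subset (range_subset_range.2 hN)
  intro k _ hk
  rw [Nat.descFactorial_eq_zero_iff_lt.2 (by have := mt mem_range.2 hk; omega)]
  simp

lemma sum_desc (m : ℕ) (h : ℕ → S) : ∃ E, ∑ j ∈ range (m + 1), (m.descFactorial j : S) * h j =
    h 0 + m * h 1 + (m.descFactorial 2 : S) * h 2 + 3 * E := by
  have h1 : ∑ j ∈ range (m + 1), (m.descFactorial j : S) * h j =
      ∑ j ∈ range (m + 1 + 1 + 1), (m.descFactorial j : S) * h j := by
    rw [sum_range_succ _ (m + 1 + 1), sum_range_succ _ (m + 1),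
      Nat.descFactorial_eq_zero_iff_lt.2 (show m < m + 1 by omega),
      Nat.descFactorial_eq_zero_iff_lt.2 (show m < m + 1 + 1 by omega)]
    simp
  have h2 : (3 : S) ∣ ∑ k ∈ range m, (m.descFactorial (k + 1 + 1 + 1) : S) * h (k + 1 + 1 + 1) := by
    apply dvd_sum
    intro k _
    apply Dvd.dvd.mul_right
    obtain ⟨w, hw⟩ := three_dvd_desc m k
    rw [show k + 1 + 1 + 1 = k + 3 by ring, hw]
    push_cast
    exact dvd_mul_right _ _
  obtain ⟨E, hE⟩ := h2
  refine ⟨E, ?_⟩
  rw [h1, sum_range_succ', sum_range_succ', sum_range_succ', hE]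
  simp only [zero_add, Nat.descFactorial_one, Nat.descFactorial_zero]
  push_cast
  ring

end

lemma three_dvd_sigma (j : ℕ) : ∃ s, ArithmeticFunction.sigma 1 (3 * j + 2) = 3 * s := by
  have h : 3 ∣ 2 * ArithmeticFunction.sigma 1 (3 * j + 2) := by
    have : 2 * ArithmeticFunction.sigma 1 (3 * j + 2) =
        ∑ d ∈ (3 * j + 2).divisors, (d + (3 * j + 2) / d) := by
      rw [sum_add_distrib, Nat.sum_div_divisors (3 * j + 2) (fun d => d),
        ArithmeticFunction.sigma_one_apply]
      ring
    rw [this]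
    apply dvd_sum
    intro d hd
    obtain ⟨e, he⟩ := Nat.dvd_of_mem_divisors hd
    have hd0 : 0 < d := Nat.pos_of_mem_divisors hd
    rw [he, Nat.mul_div_cancel_left e hd0]
    have h5 : (d * e) % 3 = 2 := by omega
    rw [Nat.mul_mod] at h5
    have h6 : d % 3 < 3 := Nat.mod_lt _ (by norm_num)
    have h7 : e % 3 < 3 := Nat.mod_lt _ (by norm_num)
    interval_cases h8 : d % 3 <;> interval_cases h9 : e % 3 <;> simp at h5 <;> omega
  obtain ⟨s, hs⟩ := h
  exact ⟨ArithmeticFunction.sigma 1 (3 * j + 2) - s, by omega⟩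

end Pool.Agent.R326
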