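import Pool.Agent.R326.DArcais3

/-!
Valuations at a prime above three of the D'Arcais polynomials at `3 y`, `y² ≡ -1` modulo three.
-/

set_option autoImplicit false

namespace Pool.Agent.R326

open Finset

section

variable {S : Type*} [CommRing S]

lemma sum_congr_mod (B : S) (m : ℕ) (F g : ℕ → S)
    (h : ∀ j ∈ range (m + 1), 3 * B ∣ F j - B * g j) :
    ∃ E, ∑ j ∈ range (m + 1), F j = B * (∑ j ∈ range (m + 1), g j + 3 * E) := by
  have h1 := dvd_sum h
  rw [sum_sub_distrib, ← mul_sum] at h1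
  obtain ⟨E, hE⟩ := h1
  exact ⟨E, by linear_combination hE⟩

lemma dvd_term (a b c : ℕ) (B _x u v : S) (hu : (3 : S) ^ a ∣ u) (hv : 3 ^ b ∣ v) (hc : c ≤ a + b) :
    (3 : S) ^ c ∣ B * u * v := by
  have h := mul_dvd_mul hu hv
  rw [← pow_add] at h
  rw [mul_assoc]
  exact ((pow_dvd_pow 3 hc).trans h).mul_left _

lemma step1 (y : S) (m : ℕ) (c : ℕ → S)
    (h0 : ∀ j ≤ m, ∃ E, av (3 * y) (3 * j) = 3 ^ j * (c j + 3 * E))
    (h1 : ∀ j < m, (3 : S) ^ (j + 1) ∣ av (3 * y) (3 * j + 1))
    (h2 : ∀ j < m, (3 : S) ^ (j + 2) ∣ av (3 * y) (3 * j + 2)) :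
    ∃ E, av (3 * y) (3 * m + 1) = 3 ^ (m + 1) * (y * (c m - 7 * m * c (m - 1) +
      8 * (m.descFactorial 2 : S) * c (m - 2)) + 3 * E) := by
  rw [av_succ' (3 * y) (3 * m) (3 * (m + 1)) (by omega), sum_three]
  obtain ⟨E, hE⟩ := sum_congr_mod (3 ^ m) m (fun j =>
    (ArithmeticFunction.sigma 1 (3 * j + 1) : S) *
      ((3 * m).descFactorial (3 * j) : S) * av (3 * y) (3 * m - (3 * j)) +
    (ArithmeticFunction.sigma 1 (3 * j + 1 + 1) : S) *
      ((3 * m).descFactorial (3 * j + 1) : S) * av (3 * y) (3 * m - (3 * j + 1)) +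
    (ArithmeticFunction.sigma 1 (3 * j + 2 + 1) : S) *
      ((3 * m).descFactorial (3 * j + 2) : S) * av (3 * y) (3 * m - (3 * j + 2)))
    (fun j => (m.descFactorial j : S) *
      ((ArithmeticFunction.sigma 1 (3 * j + 1) : S) * (-1) ^ j * c (m - j))) (by
      intro j hj
      have hj' : j ≤ m := by have := mem_range.1 hj; omega
      have e2 : (3 : S) * 3 ^ m ∣ (ArithmeticFunction.sigma 1 (3 * j + 1 + 1) : S) *
          ((3 * m).descFactorial (3 * j + 1) : S) * av (3 * y) (3 * m - (3 * j + 1)) := by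
        rcases Nat.lt_or_ge j m with hlt | hge
        · rw [← pow_succ']
          apply dvd_term (j + 1) (m - j + 1) (m + 1) _ y
          · exact desc_dvd_three _ _ _ (by omega)
          · rw [show 3 * m - (3 * j + 1) = 3 * (m - j - 1) + 2 by omega]
            have := h2 (m - j - 1) (by omega)
            rwa [show m - j - 1 + 2 = m - j + 1 by omega] at this
          · omega
        · rw [Nat.descFactorial_eq_zero_iff_lt.2 (by omega)]
          simp
      have e3 : (3 : S) * 3 ^ m ∣ (ArithmeticFunction.sigma 1 (3 * j + 2 + 1) : S) *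
          ((3 * m).descFactorial (3 * j + 2) : S) * av (3 * y) (3 * m - (3 * j + 2)) := by
        rcases Nat.lt_or_ge j m with hlt | hge
        · rw [← pow_succ']
          apply dvd_term (j + 1) (m - j) (m + 1) _ y
          · exact desc_dvd_three _ _ _ (by omega)
          · rw [show 3 * m - (3 * j + 2) = 3 * (m - j - 1) + 1 by omega]
            have := h1 (m - j - 1) (by omega)
            rwa [show m - j - 1 + 1 = m - j by omega] at this
          · omega
        · rw [Nat.descFactorial_eq_zero_iff_lt.2 (by omega)]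
          simp
      have e1 : (3 : S) * 3 ^ m ∣ (ArithmeticFunction.sigma 1 (3 * j + 1) : S) *
          ((3 * m).descFactorial (3 * j) : S) * av (3 * y) (3 * m - (3 * j)) -
          3 ^ m * ((m.descFactorial j : S) *
            ((ArithmeticFunction.sigma 1 (3 * j + 1) : S) * (-1) ^ j * c (m - j))) := by
        obtain ⟨w, hw⟩ := desc_norm0 (S := S) m j
        obtain ⟨E, hE⟩ := h0 (m - j) (by omega)
        rw [hw, show 3 * m - 3 * j = 3 * (m - j) by omega, hE]
        have hp : (3 : S) ^ m = 3 ^ j * 3 ^ (m - j) := by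
          rw [← pow_add]; congr 1; omega
        rw [hp]
        refine ⟨(ArithmeticFunction.sigma 1 (3 * j + 1) : S) * (w * c (m - j) +
          (-1) ^ j * (m.descFactorial j : S) * E + 3 * w * E), ?_⟩
        ring
      convert dvd_add (dvd_add e1 e2) e3 using 1
      ring)
  obtain ⟨E', hE'⟩ := sum_desc m (fun j =>
      ((ArithmeticFunction.sigma 1 (3 * j + 1) : S) * (-1) ^ j * c (m - j)))
  refine ⟨y * (E + E'), ?_⟩
  rw [hE, hE']
  have s1 : ArithmeticFunction.sigma 1 1 = 1 := by simp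
  have s4 : ArithmeticFunction.sigma 1 4 = 7 := by decide
  have s7 : ArithmeticFunction.sigma 1 7 = 8 := by decide
  simp only [mul_zero, zero_add, mul_one, show 3 + 1 = 4 by rfl, show 3 * 2 + 1 = 7 by rfl, s1, s4,
    s7, Nat.sub_zero]
  push_cast
  ring

lemma step3 (y : S) (m : ℕ) (c : ℕ → S)
    (h0 : ∀ j ≤ m, ∃ E, av (3 * y) (3 * j) = 3 ^ j * (c j + 3 * E))
    (h1 : ∀ j ≤ m, (3 : S) ^ (j + 1) ∣ av (3 * y) (3 * j + 1))
    (h2 : ∀ j ≤ m, (3 : S) ^ (j + 2) ∣ av (3 * y) (3 * j + 2)) :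
    ∃ E, av (3 * y) (3 * m + 3) = 3 ^ (m + 1) * (2 * y * (4 * c m - 12 * m * c (m - 1) +
      13 * (m.descFactorial 2 : S) * c (m - 2)) + 3 * E) := by
  rw [show 3 * m + 3 = (3 * m + 2) + 1 by ring,
    av_succ' (3 * y) (3 * m + 2) (3 * (m + 1)) (by omega), sum_three]
  obtain ⟨E, hE⟩ := sum_congr_mod (3 ^ m) m (fun j =>
    (ArithmeticFunction.sigma 1 (3 * j + 1) : S) *
      ((3 * m + 2).descFactorial (3 * j) : S) * av (3 * y) (3 * m + 2 - (3 * j)) +
    (ArithmeticFunction.sigma 1 (3 * j + 1 + 1) : S) *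
      ((3 * m + 2).descFactorial (3 * j + 1) : S) * av (3 * y) (3 * m + 2 - (3 * j + 1)) +
    (ArithmeticFunction.sigma 1 (3 * j + 2 + 1) : S) *
      ((3 * m + 2).descFactorial (3 * j + 2) : S) * av (3 * y) (3 * m + 2 - (3 * j + 2)))
    (fun j => (m.descFactorial j : S) *
      ((ArithmeticFunction.sigma 1 (3 * j + 3) : S) * (-1) ^ j * (2 * c (m - j)))) (by
      intro j hj
      have hj' : j ≤ m := by have := mem_range.1 hj; omega
      have e1 : (3 : S) * 3 ^ m ∣ (ArithmeticFunction.sigma 1 (3 * j + 1) : S) *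
          ((3 * m + 2).descFactorial (3 * j) : S) * av (3 * y) (3 * m + 2 - (3 * j)) := by
        rw [← pow_succ']
        apply dvd_term j (m - j + 2) (m + 1) _ y
        · exact desc_dvd_three _ _ _ (by omega)
        · rw [show 3 * m + 2 - (3 * j) = 3 * (m - j) + 2 by omega]
          exact h2 (m - j) (by omega)
        · omega
      have e2 : (3 : S) * 3 ^ m ∣ (ArithmeticFunction.sigma 1 (3 * j + 1 + 1) : S) *
          ((3 * m + 2).descFactorial (3 * j + 1) : S) * av (3 * y) (3 * m + 2 - (3 * j + 1)) := by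
        rw [← pow_succ']
        apply dvd_term j (m - j + 1) (m + 1) _ y
        · exact desc_dvd_three _ _ _ (by omega)
        · rw [show 3 * m + 2 - (3 * j + 1) = 3 * (m - j) + 1 by omega]
          exact h1 (m - j) (by omega)
        · omega
      have e3 : (3 : S) * 3 ^ m ∣ (ArithmeticFunction.sigma 1 (3 * j + 2 + 1) : S) *
          ((3 * m + 2).descFactorial (3 * j + 2) : S) * av (3 * y) (3 * m + 2 - (3 * j + 2)) -
          3 ^ m * ((m.descFactorial j : S) *
            ((ArithmeticFunction.sigma 1 (3 * j + 3) : S) * (-1) ^ j * (2 * c (m - j)))) := by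
        obtain ⟨w, hw⟩ := desc_norm2' (S := S) m j
        obtain ⟨E, hE⟩ := h0 (m - j) (by omega)
        rw [hw, show 3 * m + 2 - (3 * j + 2) = 3 * (m - j) by omega, hE,
          show 3 * j + 2 + 1 = 3 * j + 3 by ring]
        have hp : (3 : S) ^ m = 3 ^ j * 3 ^ (m - j) := by
          rw [← pow_add]; congr 1; omega
        rw [hp]
        refine ⟨(ArithmeticFunction.sigma 1 (3 * j + 3) : S) * (w * c (m - j) +
          2 * (-1) ^ j * (m.descFactorial j : S) * E + 3 * w * E), ?_⟩
        ring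
      convert dvd_add (dvd_add e1 e2) e3 using 1
      ring)
  obtain ⟨E', hE'⟩ := sum_desc m (fun j =>
      ((ArithmeticFunction.sigma 1 (3 * j + 3) : S) * (-1) ^ j * (2 * c (m - j))))
  refine ⟨y * (E + E'), ?_⟩
  rw [hE, hE']
  have s1 : ArithmeticFunction.sigma 1 3 = 4 := by decide
  have s4 : ArithmeticFunction.sigma 1 6 = 12 := by decide
  have s7 : ArithmeticFunction.sigma 1 9 = 13 := by decide
  simp only [mul_zero, zero_add, mul_one, show 3 + 3 = 6 by rfl, show 3 * 2 + 3 = 9 by rfl, s1, s4,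
    s7, Nat.sub_zero]
  push_cast
  ring

lemma step2 (y : S) (m : ℕ) (c b : ℕ → S)
    (h0 : ∀ j ≤ m, ∃ E, av (3 * y) (3 * j) = 3 ^ j * (c j + 3 * E))
    (h1 : ∀ j ≤ m, ∃ E, av (3 * y) (3 * j + 1) = 3 ^ (j + 1) * (b j + 3 * E))
    (h2 : ∀ j < m, (3 : S) ^ (j + 2) ∣ av (3 * y) (3 * j + 2)) :
    ∃ E, av (3 * y) (3 * m + 2) = 3 ^ (m + 2) * (y * (b m - 7 * m * b (m - 1) +
      8 * (m.descFactorial 2 : S) * b (m - 2) + c m - 2 * m * c (m - 1) +
      5 * (m.descFactorial 2 : S) * c (m - 2)) + 3 * E) := by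
  choose s hs using three_dvd_sigma
  rw [show 3 * m + 2 = (3 * m + 1) + 1 by ring,
    av_succ' (3 * y) (3 * m + 1) (3 * (m + 1)) (by omega), sum_three]
  obtain ⟨E, hE⟩ := sum_congr_mod (3 ^ (m + 1)) m (fun j =>
    (ArithmeticFunction.sigma 1 (3 * j + 1) : S) *
      ((3 * m + 1).descFactorial (3 * j) : S) * av (3 * y) (3 * m + 1 - (3 * j)) +
    (ArithmeticFunction.sigma 1 (3 * j + 1 + 1) : S) *
      ((3 * m + 1).descFactorial (3 * j + 1) : S) * av (3 * y) (3 * m + 1 - (3 * j + 1)) +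
    (ArithmeticFunction.sigma 1 (3 * j + 2 + 1) : S) *
      ((3 * m + 1).descFactorial (3 * j + 2) : S) * av (3 * y) (3 * m + 1 - (3 * j + 2)))
    (fun j => (m.descFactorial j : S) *
      ((ArithmeticFunction.sigma 1 (3 * j + 1) : S) * (-1) ^ j * b (m - j) +
        (s j : S) * (-1) ^ j * c (m - j))) (by
      intro j hj
      have hj' : j ≤ m := by have := mem_range.1 hj; omega
      have hp : (3 : S) ^ m = 3 ^ j * 3 ^ (m - j) := by
        rw [← pow_add]; congr 1; omega
      have e1 : (3 : S) * 3 ^ (m + 1) ∣ (ArithmeticFunction.sigma 1 (3 * j + 1) : S) *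
          ((3 * m + 1).descFactorial (3 * j) : S) * av (3 * y) (3 * m + 1 - (3 * j)) -
          3 ^ (m + 1) * ((m.descFactorial j : S) *
            ((ArithmeticFunction.sigma 1 (3 * j + 1) : S) * (-1) ^ j * b (m - j))) := by
        obtain ⟨w, hw⟩ := desc_norm1 (S := S) m j
        obtain ⟨E, hE⟩ := h1 (m - j) (by omega)
        rw [hw, show 3 * m + 1 - 3 * j = 3 * (m - j) + 1 by omega, hE, pow_succ, pow_succ, hp]
        refine ⟨(ArithmeticFunction.sigma 1 (3 * j + 1) : S) * (w * b (m - j) +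
          (-1) ^ j * (m.descFactorial j : S) * E + 3 * w * E), ?_⟩
        ring
      have e2 : (3 : S) * 3 ^ (m + 1) ∣ (ArithmeticFunction.sigma 1 (3 * j + 1 + 1) : S) *
          ((3 * m + 1).descFactorial (3 * j + 1) : S) * av (3 * y) (3 * m + 1 - (3 * j + 1)) -
          3 ^ (m + 1) * ((m.descFactorial j : S) * ((s j : S) * (-1) ^ j * c (m - j))) := by
        obtain ⟨w, hw⟩ := desc_norm1' (S := S) m j
        obtain ⟨E, hE⟩ := h0 (m - j) (by omega)
        rw [hw, show 3 * m + 1 - (3 * j + 1) = 3 * (m - j) by omega, hE, pow_succ, hp,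
          show 3 * j + 1 + 1 = 3 * j + 2 by ring, hs j]
        push_cast
        refine ⟨(s j : S) * (w * c (m - j) +
          (-1) ^ j * (m.descFactorial j : S) * E + 3 * w * E), ?_⟩
        ring
      have e3 : (3 : S) * 3 ^ (m + 1) ∣ (ArithmeticFunction.sigma 1 (3 * j + 2 + 1) : S) *
          ((3 * m + 1).descFactorial (3 * j + 2) : S) * av (3 * y) (3 * m + 1 - (3 * j + 2)) := by
        rcases Nat.lt_or_ge j m with hlt | hge
        · rw [← pow_succ']
          apply dvd_term (j + 1) (m - j + 1) (m + 1 + 1) _ y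
          · exact desc_dvd_three _ _ _ (by omega)
          · rw [show 3 * m + 1 - (3 * j + 2) = 3 * (m - j - 1) + 2 by omega]
            have := h2 (m - j - 1) (by omega)
            rwa [show m - j - 1 + 2 = m - j + 1 by omega] at this
          · omega
        · rw [Nat.descFactorial_eq_zero_iff_lt.2 (by omega)]
          simp
      convert dvd_add (dvd_add e1 e2) e3 using 1
      ring)
  obtain ⟨E', hE'⟩ := sum_desc m (fun j =>
      ((ArithmeticFunction.sigma 1 (3 * j + 1) : S) * (-1) ^ j * b (m - j) +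
        (s j : S) * (-1) ^ j * c (m - j)))
  refine ⟨y * (E + E'), ?_⟩
  rw [hE, hE']
  have s1 : ArithmeticFunction.sigma 1 1 = 1 := by simp
  have s4 : ArithmeticFunction.sigma 1 4 = 7 := by decide
  have s7 : ArithmeticFunction.sigma 1 7 = 8 := by decide
  have s2 : ArithmeticFunction.sigma 1 2 = 3 := by decide
  have s5 : ArithmeticFunction.sigma 1 5 = 6 := by decide
  have s8 : ArithmeticFunction.sigma 1 8 = 15 := by decide
  have t0 : s 0 = 1 := by
    have := hs 0
    rw [show 3 * 0 + 2 = 2 by rfl, s2] at this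
    omega
  have t1 : s 1 = 2 := by
    have := hs 1
    rw [show 3 * 1 + 2 = 5 by rfl, s5] at this
    omega
  have t2 : s 2 = 5 := by
    have := hs 2
    rw [show 3 * 2 + 2 = 8 by rfl, s8] at this
    omega
  simp only [mul_zero, zero_add, mul_one, show 3 + 1 = 4 by rfl, show 3 * 2 + 1 = 7 by rfl, s1, s4,
    s7, Nat.sub_zero, t0, t1, t2]
  push_cast
  ring

end

end Pool.Agent.R326
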