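import Pool.Agent.R326.DArcais2
import Pool.Agent.R326.DArcais4

/-!
Non-vanishing of the D'Arcais polynomials at square roots of negative integers.
-/

set_option autoImplicit false

namespace Pool.Agent.R326

open Finset

section

variable {S : Type*} [CommRing S]

/-- the residues of `av (3 y) (3 m) / 3 ^ m` -/
def r0 (y : S) (m : ℕ) : S :=
  (-y) ^ (m / 3) * (if m % 3 = 0 then 1 else if m % 3 = 1 then -y else -1)

/-- the residues of `av (3 y) (3 m + 1) / 3 ^ (m + 1)` -/
def r1 (y : S) (m : ℕ) : S :=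
  (-y) ^ (m / 3) * (if m % 3 = 0 then y else if m % 3 = 1 then 1 - y else 1)

/-- the residues of `av (3 y) (3 m + 2) / 3 ^ (m + 2)` -/
def r2 (y : S) (m : ℕ) : S :=
  (-y) ^ (m / 3) * (if m % 3 = 0 then y - 1 else if m % 3 = 1 then -y else -1 - y)

lemma r0_0 (y : S) (a : ℕ) : r0 y (3 * a) = (-y) ^ a := by
  rw [r0, show 3 * a / 3 = a by omega, if_pos (by omega), mul_one]

lemma r0_1 (y : S) (a : ℕ) : r0 y (3 * a + 1) = -y * (-y) ^ a := by
  rw [r0, show (3 * a + 1) / 3 = a by omega, if_neg (by omega), if_pos (by omega)]; ring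

lemma r0_2 (y : S) (a : ℕ) : r0 y (3 * a + 2) = -(-y) ^ a := by
  rw [r0, show (3 * a + 2) / 3 = a by omega, if_neg (by omega), if_neg (by omega)]; ring

lemma r0_3 (y : S) (a : ℕ) : r0 y (3 * a + 3) = -y * (-y) ^ a := by
  rw [show 3 * a + 3 = 3 * (a + 1) by ring, r0_0]; ring

lemma r1_0 (y : S) (a : ℕ) : r1 y (3 * a) = y * (-y) ^ a := by
  rw [r1, show 3 * a / 3 = a by omega, if_pos (by omega)]; ring

lemma r1_1 (y : S) (a : ℕ) : r1 y (3 * a + 1) = (1 - y) * (-y) ^ a := by
  rw [r1, show (3 * a + 1) / 3 = a by omega, if_neg (by omega), if_pos (by omega)]; ring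

lemma r1_2 (y : S) (a : ℕ) : r1 y (3 * a + 2) = (-y) ^ a := by
  rw [r1, show (3 * a + 2) / 3 = a by omega, if_neg (by omega), if_neg (by omega)]; ring

lemma r2_0 (y : S) (a : ℕ) : r2 y (3 * a) = (y - 1) * (-y) ^ a := by
  rw [r2, show 3 * a / 3 = a by omega, if_pos (by omega)]; ring

lemma r2_1 (y : S) (a : ℕ) : r2 y (3 * a + 1) = -y * (-y) ^ a := by
  rw [r2, show (3 * a + 1) / 3 = a by omega, if_neg (by omega), if_pos (by omega)]; ring

lemma r2_2 (y : S) (a : ℕ) : r2 y (3 * a + 2) = (-1 - y) * (-y) ^ a := by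
  rw [r2, show (3 * a + 2) / 3 = a by omega, if_neg (by omega), if_neg (by omega)]; ring

lemma desc2_cast (m : ℕ) : ∃ w : S, (m.descFactorial 2 : S) = (m : S) * (m - 1) + 3 * w := by
  refine ⟨0, ?_⟩
  cases m with
  | zero => simp
  | succ m =>
    rw [Nat.succ_descFactorial_succ, Nat.descFactorial_one]
    push_cast
    ring

lemma caseD {y f : S} (hy : y ^ 2 = -1 - 3 * f) (m : ℕ) :
    (∃ E, av (3 * y) (3 * m) = 3 ^ m * (r0 y m + 3 * E)) ∧
    (∃ E, av (3 * y) (3 * m + 1) = 3 ^ (m + 1) * (r1 y m + 3 * E)) ∧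
    (∃ E, av (3 * y) (3 * m + 2) = 3 ^ (m + 2) * (r2 y m + 3 * E)) := by
  induction m using Nat.strong_induction_on with
  | _ m ih =>
    have A0 : ∃ E, av (3 * y) (3 * m) = 3 ^ m * (r0 y m + 3 * E) := by
      cases m with
      | zero => exact ⟨0, by simp [r0, av_zero]⟩
      | succ m =>
        obtain ⟨E, hE⟩ := step3 y m (r0 y) (fun j hj => (ih j (by omega)).1)
          (fun j hj => by
            obtain ⟨E, hE⟩ := (ih j (by omega)).2.1
            exact ⟨_, hE⟩)
          (fun j hj => by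
            obtain ⟨E, hE⟩ := (ih j (by omega)).2.2
            exact ⟨_, hE⟩)
        rw [show 3 * (m + 1) = 3 * m + 3 by ring, hE]
        suffices h : ∃ E', 2 * y * (4 * r0 y m - 12 * m * r0 y (m - 1) +
            13 * (m.descFactorial 2 : S) * r0 y (m - 2)) = r0 y (m + 1) + 3 * E' by
          obtain ⟨E', hE'⟩ := h
          exact ⟨E + E', by rw [hE']; ring⟩
        obtain ⟨v, hv⟩ := desc2_cast (S := S) m
        rw [hv]
        obtain ⟨a, ha⟩ : ∃ a, m = 3 * a ∨ m = 3 * a + 1 ∨ m = 3 * a + 2 := ⟨m / 3, by omega⟩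
        rcases ha with rfl | rfl | rfl
        · rw [r0_0, r0_1]
          refine ⟨3 * y * (-y) ^ a - 24 * a * y * r0 y (3 * a - 1) + 26 * (a * (3 * a - 1) + v) *
            y * r0 y (3 * a - 2), ?_⟩
          push_cast
          ring
        · rw [r0_1, show 3 * a + 1 - 1 = 3 * a by omega, r0_0, show 3 * a + 1 + 1 = 3 * a + 2 by ring,
            r0_2]
          refine ⟨3 * (-y) ^ a + 8 * f * (-y) ^ a - 8 * (3 * a + 1) * y * (-y) ^ a +
            26 * ((3 * a + 1) * a + v) * y * r0 y (3 * a + 1 - 2), ?_⟩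
          push_cast
          linear_combination (-8 * (-y) ^ a) * hy
        · rw [r0_2, show 3 * a + 2 - 1 = 3 * a + 1 by omega, r0_1, show 3 * a + 2 - 2 = 3 * a by omega,
            r0_0, show 3 * a + 2 + 1 = 3 * a + 3 by ring, r0_3]
          refine ⟨15 * y * (-y) ^ a + 8 * (3 * a + 2) * y ^ 2 * (-y) ^ a +
            26 * (3 * a ^ 2 + 3 * a + v) * y * (-y) ^ a, ?_⟩
          push_cast
          ring
    have A1 : ∃ E, av (3 * y) (3 * m + 1) = 3 ^ (m + 1) * (r1 y m + 3 * E) := by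
      obtain ⟨E, hE⟩ := step1 y m (r0 y)
        (fun j hj => by
          rcases Nat.lt_or_ge j m with h | h
          · exact (ih j h).1
          · rw [show j = m by omega]; exact A0)
        (fun j hj => by
            obtain ⟨E, hE⟩ := (ih j (by omega)).2.1
            exact ⟨_, hE⟩)
        (fun j hj => by
            obtain ⟨E, hE⟩ := (ih j (by omega)).2.2
            exact ⟨_, hE⟩)
      rw [hE]
      suffices h : ∃ E', y * (r0 y m - 7 * m * r0 y (m - 1) +
          8 * (m.descFactorial 2 : S) * r0 y (m - 2)) = r1 y m + 3 * E' by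
        obtain ⟨E', hE'⟩ := h
        exact ⟨E + E', by rw [hE']; ring⟩
      obtain ⟨v, hv⟩ := desc2_cast (S := S) m
      rw [hv]
      obtain ⟨a, ha⟩ : ∃ a, m = 3 * a ∨ m = 3 * a + 1 ∨ m = 3 * a + 2 := ⟨m / 3, by omega⟩
      rcases ha with rfl | rfl | rfl
      · rw [r0_0, r1_0]
        refine ⟨-7 * a * y * r0 y (3 * a - 1) + 8 * (a * (3 * a - 1) + v) *
          y * r0 y (3 * a - 2), ?_⟩
        push_cast
        ring
      · rw [r0_1, show 3 * a + 1 - 1 = 3 * a by omega, r0_0, r1_1]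
        refine ⟨f * (-y) ^ a - 7 * a * y * (-y) ^ a - 2 * y * (-y) ^ a +
          8 * ((3 * a + 1) * a + v) * y * r0 y (3 * a + 1 - 2), ?_⟩
        push_cast
        linear_combination (-(-y) ^ a) * hy
      · rw [r0_2, show 3 * a + 2 - 1 = 3 * a + 1 by omega, r0_1, show 3 * a + 2 - 2 = 3 * a by omega,
          r0_0, r1_2]
        refine ⟨5 * y * (-y) ^ a + 8 * (3 * a ^ 2 + 3 * a + v) * y * (-y) ^ a - 5 * (-y) ^ a -
          14 * f * (-y) ^ a + 7 * a * y ^ 2 * (-y) ^ a, ?_⟩
        push_cast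
        linear_combination (14 * (-y) ^ a) * hy
    have A2 : ∃ E, av (3 * y) (3 * m + 2) = 3 ^ (m + 2) * (r2 y m + 3 * E) := by
      obtain ⟨E, hE⟩ := step2 y m (r0 y) (r1 y)
        (fun j hj => by
          rcases Nat.lt_or_ge j m with h | h
          · exact (ih j h).1
          · rw [show j = m by omega]; exact A0)
        (fun j hj => by
          rcases Nat.lt_or_ge j m with h | h
          · exact (ih j h).2.1
          · rw [show j = m by omega]; exact A1)
        (fun j hj => by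
            obtain ⟨E, hE⟩ := (ih j (by omega)).2.2
            exact ⟨_, hE⟩)
      rw [hE]
      suffices h : ∃ E', y * (r1 y m - 7 * m * r1 y (m - 1) +
          8 * (m.descFactorial 2 : S) * r1 y (m - 2) + r0 y m - 2 * m * r0 y (m - 1) +
          5 * (m.descFactorial 2 : S) * r0 y (m - 2)) = r2 y m + 3 * E' by
        obtain ⟨E', hE'⟩ := h
        exact ⟨E + E', by rw [hE']; ring⟩
      obtain ⟨v, hv⟩ := desc2_cast (S := S) m
      rw [hv]
      obtain ⟨a, ha⟩ : ∃ a, m = 3 * a ∨ m = 3 * a + 1 ∨ m = 3 * a + 2 := ⟨m / 3, by omega⟩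
      rcases ha with rfl | rfl | rfl
      · rw [r0_0, r1_0, r2_0]
        refine ⟨-f * (-y) ^ a + y * (-7 * a * r1 y (3 * a - 1) + 8 * (a * (3 * a - 1) + v) *
          r1 y (3 * a - 2) - 2 * a * r0 y (3 * a - 1) + 5 * (a * (3 * a - 1) + v) *
          r0 y (3 * a - 2)), ?_⟩
        push_cast
        linear_combination ((-y) ^ a) * hy
      · rw [r0_1, r1_1, show 3 * a + 1 - 1 = 3 * a by omega, r0_0, r1_0, r2_1]
        refine ⟨(-y) ^ a * (-3 * y ^ 2 - 7 * a * y ^ 2 - 2 * a * y) +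
          y * (8 * ((3 * a + 1) * a + v) * r1 y (3 * a + 1 - 2) + 5 * ((3 * a + 1) * a + v) *
          r0 y (3 * a + 1 - 2)), ?_⟩
        push_cast
        ring
      · rw [r0_2, r1_2, show 3 * a + 2 - 1 = 3 * a + 1 by omega, r0_1, r1_1,
          show 3 * a + 2 - 2 = 3 * a by omega, r0_0, r1_0, r2_2]
        refine ⟨(-y) ^ a * (-y - 11 - 34 * f + y * (-7 * a * (1 - y) +
          8 * (3 * a ^ 2 + 3 * a + v) * y + 2 * a * y + 5 * (3 * a ^ 2 + 3 * a + v))), ?_⟩
        push_cast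
        linear_combination (34 * (-y) ^ a) * hy
    exact ⟨A0, A1, A2⟩

end

end Pool.Agent.R326
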