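import Pool.Agent.R326.DArcais5

/-!
Non-vanishing of the D'Arcais polynomials at square roots of negative integers.
-/

set_option autoImplicit false

namespace Pool.Agent.R326

open Finset

section

variable {S : Type*} [CommRing S] [IsDomain S]

lemma two_ne (𝔪 : Ideal S) [h𝔪 : 𝔪.IsPrime] (h2 : (2 : S) ∈ 𝔪) (hS : (2 : S) ≠ 0) {z v : S}
    (hv : v ∉ 𝔪) (hz : z ^ 2 = 2 * v) (n : ℕ) : av (1 + z) n ≠ 0 ∧ av z n ≠ 0 := by
  have hle := Ideal.primeCompl_le_nonZeroDivisors 𝔪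
  have : IsDomain (Localization.AtPrime 𝔪) := IsLocalization.isDomain_localization hle
  have hinj : Function.Injective (algebraMap S (Localization.AtPrime 𝔪)) :=
    IsLocalization.injective _ hle
  have hu : IsUnit (algebraMap S (Localization.AtPrime 𝔪) v) :=
    IsLocalization.map_units (Localization.AtPrime 𝔪) (⟨v, hv⟩ : 𝔪.primeCompl)
  have hn2 : ¬ IsUnit (algebraMap S (Localization.AtPrime 𝔪) 2) := by
    rw [IsLocalization.AtPrime.isUnit_to_map_iff (Localization.AtPrime 𝔪) 𝔪 2]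
    exact fun h => h h2
  set φ := algebraMap S (Localization.AtPrime 𝔪) with hφ
  obtain ⟨w, hw⟩ := hu.exists_right_inv
  have h2z : (2 : Localization.AtPrime 𝔪) = φ z ^ 2 * w := by
    rw [← map_pow, hz, map_mul, mul_assoc, hw, mul_one, map_ofNat]
  have hzu : ¬ IsUnit (φ z) := by
    intro h
    apply hn2
    rw [map_ofNat, h2z]
    exact (h.pow 2).mul (IsUnit.of_mul_eq_one _ (by rw [mul_comm]; exact hw))
  have hz0 : φ z ≠ 0 := by
    intro h
    rw [h] at h2z
    apply hS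
    apply hinj
    rw [map_ofNat, map_zero, h2z]
    ring
  have hE : ∀ E, 1 + φ z * E ≠ 0 := by
    intro E h
    apply hzu
    exact IsUnit.of_mul_eq_one (-E) (by linear_combination -h)
  constructor
  · obtain ⟨E, h⟩ := caseA h2z n
    intro h0
    have h1 : φ (av (1 + z) n) = 0 := by rw [h0, map_zero]
    rw [av_map, map_add, map_one, h] at h1
    exact (mul_ne_zero (pow_ne_zero _ hz0) (hE E)) h1
  · obtain ⟨E, h⟩ := caseB h2z n
    intro h0
    have h1 : φ (av z n) = 0 := by rw [h0, map_zero]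
    rw [av_map, h] at h1
    exact (mul_ne_zero (pow_ne_zero _ hz0) (hE E)) h1

omit [IsDomain S] in
lemma three_ne (𝔪 : Ideal S) [𝔪.IsMaximal] (h3 : (3 : S) ∈ 𝔪) {x f : S}
    (hx : x ^ 2 = -1 - 3 * f) (n : ℕ) : av x n ≠ 0 := by
  let : Field (S ⧸ 𝔪) := Ideal.Quotient.field 𝔪
  have h3' : (3 : S ⧸ 𝔪) = 0 := by
    have := Ideal.Quotient.eq_zero_iff_mem.2 h3
    rwa [map_ofNat] at this
  have hx' : (Ideal.Quotient.mk 𝔪 x) ^ 2 = -1 := by
    rw [← map_pow, hx, map_sub, map_neg, map_one, map_mul, map_ofNat, h3', zero_mul, sub_zero]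
  have hne : ∀ m, av (Ideal.Quotient.mk 𝔪 x) m ≠ 0 := by
    intro m
    obtain ⟨h0, h1, h2, -⟩ := caseC h3' hx' (m / 3)
    have hx0 : Ideal.Quotient.mk 𝔪 x ≠ 0 := by
      intro h
      rw [h] at hx'
      exact one_ne_zero (α := S ⧸ 𝔪) (by linear_combination hx')
    have hm : m = 3 * (m / 3) ∨ m = 3 * (m / 3) + 1 ∨ m = 3 * (m / 3) + 2 := by omega
    rcases hm with hm | hm | hm
    · rw [hm]; exact h0
    · rw [hm, h1]; exact mul_ne_zero hx0 h0
    · rw [hm, h2]; exact neg_ne_zero.2 h0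
  intro h
  apply hne n
  rw [← av_map, h, map_zero]

lemma three_ne' (𝔪 : Ideal S) [𝔪.IsMaximal] (h3 : (3 : S) ∈ 𝔪) (hS : (3 : S) ≠ 0) {y f : S}
    (hy : y ^ 2 = -1 - 3 * f) (n : ℕ) : av (3 * y) n ≠ 0 := by
  let : Field (S ⧸ 𝔪) := Ideal.Quotient.field 𝔪
  set ψ := Ideal.Quotient.mk 𝔪 with hψ
  have h3' : (3 : S ⧸ 𝔪) = 0 := by
    have := Ideal.Quotient.eq_zero_iff_mem.2 h3
    rwa [map_ofNat] at this
  have hy' : (ψ y) ^ 2 = -1 := by
    rw [← map_pow, hy, map_sub, map_neg, map_one, map_mul, map_ofNat, h3', zero_mul, sub_zero]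
  have hy0 : ψ y ≠ 0 := by
    intro h
    rw [h] at hy'
    exact one_ne_zero (α := S ⧸ 𝔪) (by linear_combination hy')
  have hy1 : 1 - ψ y ≠ 0 := by
    intro h
    apply one_ne_zero (α := S ⧸ 𝔪)
    linear_combination (-(1 + ψ y)) * h - hy' + h3'
  have hy2 : 1 + ψ y ≠ 0 := by
    intro h
    apply one_ne_zero (α := S ⧸ 𝔪)
    linear_combination (-(1 - ψ y)) * h - hy' + h3'
  have hA : ∀ a : ℕ, (-ψ y) ^ a ≠ 0 := fun a => pow_ne_zero _ (neg_ne_zero.2 hy0)
  have key : ∀ (e : ℕ) (r E : S), ψ r ≠ 0 → (3 : S) ^ e * (r + 3 * E) ≠ 0 := by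
    intro e r E hr
    apply mul_ne_zero (pow_ne_zero _ hS)
    intro h
    apply hr
    have := congrArg ψ h
    rwa [map_add, map_mul, map_ofNat, h3', zero_mul, add_zero, map_zero] at this
  obtain ⟨⟨E0, e0⟩, ⟨E1, e1⟩, ⟨E2, e2⟩⟩ := caseD hy (n / 3)
  have hn : n = 3 * (n / 3) ∨ n = 3 * (n / 3) + 1 ∨ n = 3 * (n / 3) + 2 := by omega
  set m := n / 3 with hm
  obtain ⟨a, ha⟩ : ∃ a, m = 3 * a ∨ m = 3 * a + 1 ∨ m = 3 * a + 2 := ⟨m / 3, by omega⟩
  rcases hn with hn | hn | hn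
  · rw [hn, e0]
    apply key
    rcases ha with ha | ha | ha
    · rw [ha, r0_0]; simpa using hA a
    · rw [ha, r0_1]; simpa using ⟨hy0, fun h => absurd h hy0⟩
    · rw [ha, r0_2]; simpa using hA a
  · rw [hn, e1]
    apply key
    rcases ha with ha | ha | ha
    · rw [ha, r1_0, map_mul, map_pow, map_neg]; exact mul_ne_zero hy0 (hA a)
    · rw [ha, r1_1, map_mul, map_pow, map_neg, map_sub, map_one]; exact mul_ne_zero hy1 (hA a)
    · rw [ha, r1_2, map_pow, map_neg]; exact hA a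
  · rw [hn, e2]
    apply key
    rcases ha with ha | ha | ha
    · rw [ha, r2_0, map_mul, map_pow, map_neg, map_sub, map_one]
      exact mul_ne_zero (fun h => hy1 (by linear_combination -h)) (hA a)
    · rw [ha, r2_1, map_mul, map_pow, map_neg]; exact mul_ne_zero (neg_ne_zero.2 hy0) (hA a)
    · rw [ha, r2_2, map_mul, map_pow, map_neg, map_sub, map_neg, map_one]
      exact mul_ne_zero (fun h => hy2 (by linear_combination -h)) (hA a)

end

/-- a prime number is not invertible in the ring of algebraic integers -/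
lemma exists_max (p : ℕ) (hp : 1 < p) : ∃ 𝔪 : Ideal (integralClosure ℤ ℂ), 𝔪.IsMaximal ∧
    (p : integralClosure ℤ ℂ) ∈ 𝔪 := by
  apply exists_max_ideal_of_mem_nonunits
  intro hu
  obtain ⟨v, hv⟩ := hu.exists_right_inv
  have hv' : (p : ℂ) * (v : ℂ) = 1 := by
    have := congrArg (fun z : integralClosure ℤ ℂ => (z : ℂ)) hv
    simpa using this
  have hp0 : (p : ℂ) ≠ 0 := by
    intro h; rw [h] at hv'; simp at hv'
  have hv2 : (v : ℂ) = algebraMap ℚ ℂ (1 / p) := by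
    rw [map_div₀, map_one, map_natCast]
    field_simp
    linear_combination hv'
  have hi : IsIntegral ℤ ((v : ℂ)) := v.2
  rw [hv2, isIntegral_algebraMap_iff (algebraMap ℚ ℂ).injective] at hi
  obtain ⟨y, hy⟩ := IsIntegrallyClosed.isIntegral_iff.1 hi
  have hp1 : (p : ℚ) ≠ 0 := by exact_mod_cast hp0
  have h1 : (y : ℚ) * p = 1 := by
    rw [show (y : ℚ) = algebraMap ℤ ℚ y by simp, hy]
    field_simp
  have h2 : y * p = 1 := by exact_mod_cast h1
  have h3 : (p : ℤ) ∣ 1 := ⟨y, by linarith⟩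
  have h4 := Int.le_of_dvd (by norm_num) h3
  omega

/-- non-vanishing at the square roots of `-d` -/
theorem av_ne_zero {d : ℕ} (hd : d % 4 = 1 ∨ d % 4 = 2 ∨ d % 3 = 1 ∨ d % 27 = 9) {x : ℂ}
    (hx : x ^ 2 = -(d : ℂ)) (n : ℕ) : av x n ≠ 0 := by
  have h2C : (2 : integralClosure ℤ ℂ) ≠ 0 := by
    intro h
    have := congrArg (fun z : integralClosure ℤ ℂ => (z : ℂ)) h
    simp at this
  have h3C : (3 : integralClosure ℤ ℂ) ≠ 0 := by
    intro h
    have := congrArg (fun z : integralClosure ℤ ℂ => (z : ℂ)) h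
    simp at this
  have hint : ∀ (w : ℂ) (m : ℤ), w ^ 2 = m → IsIntegral ℤ w := by
    intro w m hw
    apply IsIntegral.of_pow (n := 2) (by norm_num)
    rw [hw]
    exact isIntegral_algebraMap (R := ℤ) (A := ℂ) (x := m)
  have hxi : IsIntegral ℤ x := hint x (-d) (by rw [hx]; push_cast; ring)
  obtain ⟨𝔪, h𝔪, hp2⟩ := exists_max 2 (by norm_num)
  obtain ⟨𝔫, h𝔫, hp3⟩ := exists_max 3 (by norm_num)
  have hprime := h𝔪.isPrime
  push_cast at hp2 hp3
  set X : integralClosure ℤ ℂ := ⟨x, hxi⟩ with hX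
  have hXx : algebraMap (integralClosure ℤ ℂ) ℂ X = x := rfl
  have hX2 : X ^ 2 = -(d : integralClosure ℤ ℂ) := by
    apply Subtype.ext
    simpa [hX] using hx
  have hone : (1 : integralClosure ℤ ℂ) ∉ 𝔪 := fun h => h𝔪.ne_top ((Ideal.eq_top_iff_one _).2 h)
  have hodd : ∀ g : integralClosure ℤ ℂ, 2 * g + 1 ∉ 𝔪 := by
    intro g h
    apply hone
    have := 𝔪.sub_mem h (𝔪.mul_mem_right g hp2)
    simpa using this
  have fin : ∀ Y : integralClosure ℤ ℂ, av Y n ≠ 0 → av (algebraMap (integralClosure ℤ ℂ) ℂ Y) n ≠ 0 := by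
    intro Y hY h
    apply hY
    rw [← av_map] at h
    exact (FaithfulSMul.algebraMap_injective (integralClosure ℤ ℂ) ℂ) (by rw [h, map_zero])
  rcases hd with hd | hd | hd | hd
  · -- d = 4 g + 1
    obtain ⟨g, hg⟩ : ∃ g, d = 4 * g + 1 := ⟨d / 4, by omega⟩
    have hv : -(X + 2 * g) ∉ 𝔪 := by
      intro h
      apply hodd (2 * g ^ 2 + 2 * g)
      have := 𝔪.mul_mem_left (X - 2 * g) h
      convert this using 1
      have e : X ^ 2 = -(4 * (g : integralClosure ℤ ℂ) + 1) := by rw [hX2, hg]; push_cast; ring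
      linear_combination e
    have hz : (X - 1) ^ 2 = 2 * (-(X + 2 * g)) := by
      have e : X ^ 2 = -(4 * (g : integralClosure ℤ ℂ) + 1) := by rw [hX2, hg]; push_cast; ring
      linear_combination e
    have := (two_ne 𝔪 hp2 h2C hv hz n).1
    rw [show (1 : integralClosure ℤ ℂ) + (X - 1) = X by ring] at this
    have h := fin X this
    rwa [hXx] at h
  · obtain ⟨g, hg⟩ : ∃ g, d = 4 * g + 2 := ⟨d / 4, by omega⟩
    have hv : -(2 * (g : integralClosure ℤ ℂ) + 1) ∉ 𝔪 := by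
      intro h
      apply hodd g
      have := 𝔪.neg_mem h
      simpa using this
    have hz : X ^ 2 = 2 * (-(2 * (g : integralClosure ℤ ℂ) + 1)) := by
      rw [hX2, hg]; push_cast; ring
    have := (two_ne 𝔪 hp2 h2C hv hz n).2
    have h := fin X this
    rwa [hXx] at h
  · obtain ⟨g, hg⟩ : ∃ g, d = 3 * g + 1 := ⟨d / 3, by omega⟩
    have hz : X ^ 2 = -1 - 3 * (g : integralClosure ℤ ℂ) := by
      rw [hX2, hg]; push_cast; ring
    have := three_ne 𝔫 hp3 hz n
    have h := fin X this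
    rwa [hXx] at h
  · obtain ⟨g, hg⟩ : ∃ g, d = 27 * g + 9 := ⟨d / 27, by omega⟩
    have hy2 : (x / 3) ^ 2 = ((-1 - 3 * g : ℤ) : ℂ) := by
      rw [div_pow, hx, hg]; push_cast; ring
    have hyi : IsIntegral ℤ (x / 3) := hint _ _ hy2
    set Y : integralClosure ℤ ℂ := ⟨x / 3, hyi⟩ with hY
    have hY2 : Y ^ 2 = -1 - 3 * (g : integralClosure ℤ ℂ) := by
      apply Subtype.ext
      have h3c : ((3 : integralClosure ℤ ℂ) : ℂ) = 3 := rfl
      have := hy2
      push_cast at this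
      simpa [hY, h3c] using this
    have := three_ne' 𝔫 hp3 h3C hY2 n
    have h := fin (3 * Y) this
    rw [map_mul, show algebraMap (integralClosure ℤ ℂ) ℂ Y = x / 3 from rfl, map_ofNat,
      mul_div_cancel₀ x (by norm_num : (3 : ℂ) ≠ 0)] at h
    exact h

end Pool.Agent.R326
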