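import Mathlib

/-!
The Euler function `∏ (1 - q^n)` and its logarithmic derivative.
-/

set_option autoImplicit false

namespace Pool.Agent.R326

open PowerSeries Finset

/-- the power series `∑ (n+1) q^j`, `j + 1` divisible by `n + 1` -/
noncomputable def K (n : ℕ) : ℤ⟦X⟧ := PowerSeries.mk fun j => if (n + 1) ∣ (j + 1) then ((n : ℤ) + 1) else 0

lemma K_mul (n : ℕ) : (1 - (X : ℤ⟦X⟧) ^ (n + 1)) * K n = ((n : ℤ⟦X⟧) + 1) * X ^ n := by
  ext j
  rw [sub_mul, one_mul, map_sub, coeff_X_pow_mul']
  have h1 : coeff j (((n : ℤ⟦X⟧) + 1) * X ^ n) = if j = n then (n : ℤ) + 1 else 0 := by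
    rw [show ((n : ℤ⟦X⟧) + 1) = C ((n : ℤ) + 1) by simp, coeff_C_mul, coeff_X_pow]
    split_ifs <;> simp
  rw [h1]
  simp only [K, coeff_mk]
  by_cases hj : n + 1 ≤ j
  · rw [if_pos hj, if_neg (show ¬ j = n by omega)]
    have : (n + 1 ∣ j + 1) ↔ (n + 1 ∣ j - (n + 1) + 1) := by
      rw [show j + 1 = (j - (n + 1) + 1) + (n + 1) by omega]
      exact Nat.dvd_add_self_right
    by_cases h : n + 1 ∣ j + 1
    · rw [if_pos h, if_pos (this.1 h)]; ring
    · rw [if_neg h, if_neg (fun h' => h (this.2 h'))]; ring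
  · rw [if_neg hj]
    by_cases hjn : j = n
    · subst hjn; simp
    · rw [if_neg hjn, if_neg]
      · ring
      · intro h
        have := Nat.le_of_dvd (by omega) h
        omega

lemma deriv_prod (s : Finset ℕ) :
    derivative ℤ (∏ n ∈ s, (1 - (X : ℤ⟦X⟧) ^ (n + 1))) =
      -(∏ n ∈ s, (1 - (X : ℤ⟦X⟧) ^ (n + 1))) * ∑ n ∈ s, K n := by
  classical
  induction s using Finset.induction with
  | empty => simp
  | insert a s ha ih =>
    rw [prod_insert ha, sum_insert ha, Derivation.leibniz, ih]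
    have h1 : derivative ℤ (1 - (X : ℤ⟦X⟧) ^ (a + 1)) = -(1 - (X : ℤ⟦X⟧) ^ (a + 1)) * K a := by
      rw [neg_mul, K_mul, map_sub, derivative_one, derivative_pow, derivative_X]
      push_cast
      simp
    rw [h1]
    simp only [smul_eq_mul]
    ring

/-- the coefficients of the Euler function -/
noncomputable def eu (k : ℕ) : ℤ := (pentagonalSeries ℤ).coeff k

lemma eu_zero : eu 0 = 1 := by
  have h := coeff_pentagonalSeries_pentagonal ℤ 0
  have h0 : pentagonal 0 = 0 := by simp [pentagonal_def]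
  rw [h0] at h
  rw [eu, h]
  simp

lemma eu_rec (k : ℕ) : ((k : ℤ) + 1) * eu (k + 1) =
    -∑ j ∈ range (k + 1), (ArithmeticFunction.sigma 1 (j + 1) : ℤ) * eu (k - j) := by
  have h1 : ∀ᶠ s : Finset ℕ in Filter.atTop, ∀ i ∈ range (k + 2),
      (∏ n ∈ s, (1 - X ^ (n + 1) : ℤ⟦X⟧)).coeff i = eu i := by
    rw [Filter.eventually_all_finset]
    intro i _
    exact coeff_prod_one_sub_X_pow_eventually_eq ℤ i
  have h2 : ∀ᶠ s : Finset ℕ in Filter.atTop, range (k + 1) ⊆ s := Filter.eventually_ge_atTop _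
  obtain ⟨s, hs1, hs2⟩ := (h1.and h2).exists
  have hsig : ∀ j ∈ range (k + 1), (∑ n ∈ s, K n).coeff j =
      (ArithmeticFunction.sigma 1 (j + 1) : ℤ) := by
    intro j hj
    rw [map_sum, ArithmeticFunction.sigma_one_apply]
    simp only [K, coeff_mk]
    rw [← sum_filter]
    push_cast
    symm
    apply sum_bij (fun d _ => d - 1)
    · intro d hd
      rw [Nat.mem_divisors] at hd
      have hd0 : d ≠ 0 := by rintro rfl; simp at hd
      rw [mem_filter]
      refine ⟨hs2 ?_, ?_⟩
      · rw [mem_range] at hj ⊢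
        have := Nat.le_of_dvd (by omega) hd.1
        omega
      · rw [Nat.sub_add_cancel (by omega)]; exact hd.1
    · intro a ha b hb hab
      rw [Nat.mem_divisors] at ha hb
      have ha0 : a ≠ 0 := by rintro rfl; simp at ha
      have hb0 : b ≠ 0 := by rintro rfl; simp at hb
      omega
    · intro b hb
      rw [mem_filter] at hb
      exact ⟨b + 1, Nat.mem_divisors.2 ⟨hb.2, by omega⟩, by omega⟩
    · intro d hd
      rw [Nat.mem_divisors] at hd
      have hd0 : d ≠ 0 := by rintro rfl; simp at hd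
      have : 1 ≤ d := by omega
      push_cast [this]
      ring
  have h3 := congrArg (coeff k) (deriv_prod s)
  rw [coeff_derivative, hs1 (k + 1) (by simp), neg_mul, map_neg, coeff_mul,
    Finset.Nat.sum_antidiagonal_eq_sum_range_succ_mk] at h3
  rw [mul_comm, h3]
  congr 1
  rw [← sum_range_reflect]
  apply sum_congr rfl
  intro j hj
  have hj' := mem_range.1 hj
  rw [show k.succ - 1 - j = k - j by omega]
  rw [hs1 (k - j) (by rw [mem_range]; omega), mul_comm]
  congr 1
  rw [show k - (k - j) = j by omega, hsig j hj]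

lemma eu_one : eu 1 = -1 := by
  have h := eu_rec 0
  simpa [eu_zero] using h

lemma eu_two : eu 2 = -1 := by
  have h := eu_rec 1
  have s2 : ArithmeticFunction.sigma 1 2 = 3 := by decide +kernel
  simp [sum_range_succ, eu_zero, eu_one, s2] at h
  linarith

lemma eu_three : eu 3 = 0 := by
  have h := eu_rec 2
  have s2 : ArithmeticFunction.sigma 1 2 = 3 := by decide +kernel
  have s3 : ArithmeticFunction.sigma 1 3 = 4 := by decide +kernel
  simp [sum_range_succ, eu_zero, eu_one, eu_two, s2, s3] at h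
  linarith

lemma eu_four : eu 4 = 0 := by
  have h := eu_rec 3
  have s2 : ArithmeticFunction.sigma 1 2 = 3 := by decide +kernel
  have s3 : ArithmeticFunction.sigma 1 3 = 4 := by decide +kernel
  have s4 : ArithmeticFunction.sigma 1 4 = 7 := by decide +kernel
  simp [sum_range_succ, eu_zero, eu_one, eu_two, eu_three, s2, s3, s4] at h
  linarith

end Pool.Agent.R326
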