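import Mathlib

/-!
Counting the real roots of an integer polynomial given by its list of coefficients:
a lower bound from sign alternation and an upper bound on `(0, 1)` from the rule of signs.
-/

set_option autoImplicit false

namespace Pool.Agent.R326

open Polynomial

/-- the polynomial with the given list of coefficients, constant term first -/
noncomputable def toP : List ℤ → ℤ[X]
  | [] => 0
  | a :: l => C a + X * toP l

@[simp] lemma toP_nil : toP [] = 0 := rfl
@[simp] lemma toP_cons (a : ℤ) (l : List ℤ) : toP (a :: l) = C a + X * toP l := rfl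

lemma toP_append (l m : List ℤ) : toP (l ++ m) = toP l + X ^ l.length * toP m := by
  induction l with
  | nil => simp
  | cons a l ih => simp only [List.cons_append, toP_cons, ih, List.length_cons]; ring

/-- sum of lists -/
def addL : List ℤ → List ℤ → List ℤ
  | [], m => m
  | l, [] => l
  | a :: l, b :: m => (a + b) :: addL l m

lemma toP_addL (l m : List ℤ) : toP (addL l m) = toP l + toP m := by
  induction l generalizing m with
  | nil => simp [addL]
  | cons a l ih =>
    cases m with
    | nil => simp [addL]
    | cons b m => simp only [addL, toP_cons, ih, C_add]; ring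

/-- product of lists -/
def mulL : List ℤ → List ℤ → List ℤ
  | [], _ => []
  | a :: l, m => addL (m.map (a * ·)) (0 :: mulL l m)

lemma toP_map_mul (a : ℤ) (m : List ℤ) : toP (m.map (a * ·)) = C a * toP m := by
  induction m with
  | nil => simp
  | cons b m ih => simp only [List.map_cons, toP_cons, ih, C_mul]; ring

lemma toP_mulL (l m : List ℤ) : toP (mulL l m) = toP l * toP m := by
  induction l with
  | nil => simp [mulL]
  | cons a l ih => simp only [mulL, toP_addL, toP_map_mul, toP_cons, ih, C_0]; ring

/-- the list of the coefficients of `f(x^(k+1))` -/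
def expL (k : ℕ) : List ℤ → List ℤ
  | [] => []
  | [a] => [a]
  | a :: b :: l => a :: (List.replicate k 0 ++ expL k (b :: l))

lemma toP_replicate (k : ℕ) : toP (List.replicate k 0) = 0 := by
  induction k with
  | zero => simp
  | succ k ih => simp [List.replicate_succ, ih]

lemma toP_expL (k : ℕ) (l : List ℤ) : toP (expL k l) = expand ℤ (k + 1) (toP l) := by
  induction l with
  | nil => simp [expL]
  | cons a l ih =>
    cases l with
    | nil => simp [expL]
    | cons b l =>
      simp only [expL, toP_cons a, toP_append, toP_replicate, ih, List.length_replicate,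
        map_add, map_mul, expand_C, expand_X]
      ring

/-- one step in the computation of cyclotomic polynomials -/
lemma cyc_step (n k : ℕ) (L M : List ℤ) (hp : (k + 1).Prime) (hn : ¬ (k + 1) ∣ n)
    (hL : cyclotomic n ℤ = toP L) (h : mulL L M = expL k L) :
    cyclotomic (n * (k + 1)) ℤ = toP M := by
  have h1 := cyclotomic_expand_eq_cyclotomic_mul hp hn ℤ
  have h2 : toP (mulL L M) = toP (expL k L) := by rw [h]
  rw [toP_mulL, toP_expL, ← hL, h1, mul_comm] at h2
  exact (mul_right_cancel₀ (cyclotomic_ne_zero n ℤ) h2).symm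

lemma cyc_three : cyclotomic 3 ℤ = toP [1, 1, 1] := by
  rw [cyclotomic_three]
  simp only [toP_cons, toP_nil, C_1]
  ring

/-- the list of the coefficients of the derivative -/
def derA (k : ℤ) : List ℤ → List ℤ
  | [] => []
  | a :: l => (k * a) :: derA (k + 1) l

/-- the list of the coefficients of the derivative -/
def derL : List ℤ → List ℤ
  | [] => []
  | _ :: l => derA 1 l

lemma toP_derA (k : ℤ) (l : List ℤ) :
    toP (derA k l) = C k * toP l + X * derivative (toP l) := by
  induction l generalizing k with
  | nil => simp [derA]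
  | cons a l ih =>
    simp only [derA, toP_cons, ih, C_mul, C_add, C_1, derivative_add, derivative_C,
      derivative_mul, derivative_X]
    ring

lemma toP_derL (l : List ℤ) : toP (derL l) = derivative (toP l) := by
  cases l with
  | nil => simp [derL]
  | cons a l =>
    simp only [derL, toP_derA, toP_cons, derivative_add, derivative_C, derivative_mul,
      derivative_X, C_1]
    ring

/-- the list of the coefficients of `f(-x)` -/
def altL : List ℤ → List ℤ
  | [] => []
  | a :: l => a :: (altL l).map (-1 * ·)

lemma toP_altL (l : List ℤ) : toP (altL l) = (toP l).comp (-X) := by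
  induction l with
  | nil => simp [altL]
  | cons a l ih =>
    simp only [altL, toP_cons, toP_map_mul, ih, add_comp, mul_comp, C_comp, X_comp]
    simp

/-- Horner evaluation of the homogenised polynomial: `∑ a_i p^i q^(n-i)` with `n + 1 = length` -/
def homE (p q : ℤ) : List ℤ → ℤ × ℤ
  | [] => (0, 1)
  | a :: l => let r := homE p q l; (a * r.2 + p * r.1, q * r.2)

lemma homE_snd (p q : ℤ) (l : List ℤ) : (homE p q l).2 = q ^ l.length := by
  induction l with
  | nil => simp [homE]
  | cons a l ih => simp only [homE, ih, List.length_cons]; ring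

lemma homE_fst (p q : ℤ) (hq : (q : ℝ) ≠ 0) (l : List ℤ) :
    ((homE p q l).1 : ℝ) * q = q ^ l.length * aeval ((p : ℝ) / q) (toP l) := by
  induction l with
  | nil => simp [homE]
  | cons a l ih =>
    simp only [homE, homE_snd, List.length_cons, toP_cons, map_add, map_mul, aeval_X, aeval_C]
    push_cast
    have : ((a : ℝ) * q ^ l.length + p * (homE p q l).1) * q =
        q ^ (l.length + 1) * a + p * ((homE p q l).1 * q) := by ring
    rw [this, ih]
    field_simp
    simp only [algebraMap_int_eq, eq_intCast]
    ring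

/-- the alternation condition -/
def altP (P : ℝ[X]) : List ℝ → Prop
  | [] => True
  | [_] => True
  | x :: y :: l => x < y ∧ P.eval x * P.eval y < 0 ∧ altP P (y :: l)

lemma altP_roots (P : ℝ[X]) (l : List ℝ) (x : ℝ) (h : altP P (x :: l)) :
    ∃ S : Finset ℝ, S.card = l.length ∧ ∀ r ∈ S, x < r ∧ P.eval r = 0 := by
  induction l generalizing x with
  | nil => exact ⟨∅, by simp, by simp⟩
  | cons y l ih =>
    obtain ⟨hxy, hneg, hrest⟩ := h
    obtain ⟨S, hS, hS2⟩ := ih y hrest
    have hcont : ContinuousOn (fun t => P.eval t) (Set.Icc x y) := P.continuous.continuousOn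
    have hr : ∃ r, x < r ∧ r < y ∧ P.eval r = 0 := by
      rcases mul_neg_iff.1 hneg with ⟨h1, h2⟩ | ⟨h1, h2⟩
      · obtain ⟨r, hr, hr0⟩ := intermediate_value_Icc' hxy.le hcont ⟨h2.le, h1.le⟩
        refine ⟨r, lt_of_le_of_ne hr.1 ?_, lt_of_le_of_ne hr.2 ?_, hr0⟩
        · rintro rfl; exact h1.ne' hr0
        · rintro rfl; exact h2.ne hr0
      · obtain ⟨r, hr, hr0⟩ := intermediate_value_Icc hxy.le hcont ⟨h1.le, h2.le⟩
        refine ⟨r, lt_of_le_of_ne hr.1 ?_, lt_of_le_of_ne hr.2 ?_, hr0⟩
        · rintro rfl; exact h1.ne hr0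
        · rintro rfl; exact h2.ne' hr0
    obtain ⟨r, h1, h2, h3⟩ := hr
    have hrS : r ∉ S := fun hm => absurd (hS2 r hm).1 (not_lt.2 h2.le)
    refine ⟨insert r S, by rw [Finset.card_insert_of_notMem hrS, hS, List.length_cons], ?_⟩
    intro t ht
    rcases Finset.mem_insert.1 ht with rfl | ht
    · exact ⟨h1, h3⟩
    · exact ⟨hxy.trans (hS2 t ht).1, (hS2 t ht).2⟩

lemma altP_card (P : ℝ[X]) (hP : P ≠ 0) (l : List ℝ) (x : ℝ) (h : altP P (x :: l)) :
    l.length ≤ P.roots.card := by
  classical
  obtain ⟨S, hS, hS2⟩ := altP_roots P l x h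
  rw [← hS]
  refine le_trans (Finset.card_le_card (t := P.roots.toFinset) ?_) (Multiset.toFinset_card_le _)
  intro r hr
  rw [Multiset.mem_toFinset, mem_roots hP]
  exact (hS2 r hr).2

/-- the alternation condition for a polynomial given by its list of coefficients and rational
points given by numerator and denominator -/
def altB (L : List ℤ) : List (ℤ × ℤ) → Bool
  | [] => true
  | [_] => true
  | a :: b :: l => decide (0 < a.2) && decide (0 < b.2) && decide (a.1 * b.2 < b.1 * a.2) &&
      decide ((homE a.1 a.2 L).1 * (homE b.1 b.2 L).1 < 0) && altB L (b :: l)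

lemma altB_altP (L : List ℤ) (l : List (ℤ × ℤ)) (h : altB L l = true) :
    altP ((toP L).map (Int.castRingHom ℝ)) (l.map (fun a => (a.1 : ℝ) / a.2)) := by
  induction l with
  | nil => trivial
  | cons a l ih =>
    cases l with
    | nil => trivial
    | cons b l =>
      simp only [altB, Bool.and_eq_true, decide_eq_true_eq] at h
      obtain ⟨⟨⟨⟨ha, hb⟩, hab⟩, hneg⟩, hrest⟩ := h
      have ha' : (0 : ℝ) < a.2 := by exact_mod_cast ha
      have hb' : (0 : ℝ) < b.2 := by exact_mod_cast hb
      have e : ∀ c : ℤ × ℤ, ((toP L).map (Int.castRingHom ℝ)).eval ((c.1 : ℝ) / c.2) =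
          aeval ((c.1 : ℝ) / c.2) (toP L) := by
        intro c
        rw [eval_map, aeval_def, algebraMap_int_eq]
      refine ⟨?_, ?_, ih hrest⟩
      · rw [div_lt_div_iff₀ ha' hb']
        exact_mod_cast hab
      · rw [e, e]
        have h1 := homE_fst a.1 a.2 ha'.ne' L
        have h2 := homE_fst b.1 b.2 hb'.ne' L
        have hneg' : ((homE a.1 a.2 L).1 : ℝ) * (homE b.1 b.2 L).1 < 0 := by exact_mod_cast hneg
        have h3 : ((homE a.1 a.2 L).1 * a.2) * ((homE b.1 b.2 L).1 * b.2 : ℝ) < 0 := by
          have : ((homE a.1 a.2 L).1 * a.2) * ((homE b.1 b.2 L).1 * b.2 : ℝ) =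
            ((homE a.1 a.2 L).1 : ℝ) * (homE b.1 b.2 L).1 * (a.2 * b.2) := by ring
          rw [this]
          exact mul_neg_of_neg_of_pos hneg' (mul_pos ha' hb')
        rw [h1, h2] at h3
        by_contra hcon
        push Not at hcon
        have h4 : (0 : ℝ) ≤ (a.2 : ℝ) ^ L.length * (b.2 : ℝ) ^ L.length *
            ((aeval ((a.1 : ℝ) / a.2) (toP L)) * (aeval ((b.1 : ℝ) / b.2) (toP L))) :=
          mul_nonneg (by positivity) hcon
        linarith [h3, h4, show (a.2 : ℝ) ^ L.length * (b.2 : ℝ) ^ L.length *
            ((aeval ((a.1 : ℝ) / a.2) (toP L)) * (aeval ((b.1 : ℝ) / b.2) (toP L))) =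
            (a.2 : ℝ) ^ L.length * (aeval ((a.1 : ℝ) / a.2) (toP L)) *
            ((b.2 : ℝ) ^ L.length * (aeval ((b.1 : ℝ) / b.2) (toP L))) by ring]

/-- lower bound for the number of real roots -/
theorem lower_list (L : List ℤ) (hL : toP L ≠ 0) (a : ℤ × ℤ) (l : List (ℤ × ℤ))
    (h : altB L (a :: l) = true) :
    l.length ≤ ((toP L).map (Int.castRingHom ℝ)).roots.card := by
  have h1 := altB_altP L _ h
  rw [List.map_cons] at h1
  have := altP_card _ ((Polynomial.map_ne_zero_iff (Int.cast_injective)).2 hL) _ _ h1
  simpa using this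

end Pool.Agent.R326
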