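import Pool.Agent.R326.RootCount

/-!
Upper bound for the number of roots in `(0, 1)` of an integer polynomial given by its list of
coefficients, by the rule of signs for the polynomial `(1 + y)^n f(1 / (1 + y))`.
-/

set_option autoImplicit false

namespace Pool.Agent.R326

open Polynomial

lemma reverse_X_sub_C {a : ℝ} : reverse (X - C a : ℝ[X]) = 1 - C a * X := by
  have hd : (X - C a : ℝ[X]).natDegree = 1 := natDegree_X_sub_C a
  ext n
  rw [coeff_reverse, hd]
  rcases n with _ | _ | n
  · simp [coeff_sub, coeff_X, coeff_C, coeff_one]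
  · simp [coeff_sub, coeff_X, coeff_C, coeff_one]
  · rw [revAt_eq_self_of_lt (by omega)]
    simp [coeff_sub, coeff_X, coeff_one]

lemma key_count (s : Multiset ℝ) (hs : ∀ a ∈ s, 0 < a ∧ a < 1) (Q : ℝ[X]) (hQ : Q ≠ 0) :
    s.card ≤ ((reverse ((s.map (fun a => X - C a)).prod * Q)).comp (X + 1)).roots.countP
      (0 < ·) := by
  induction s using Multiset.induction with
  | empty => simp
  | cons a s ih =>
    have ha := hs a (Multiset.mem_cons_self a s)
    have ih' := ih (fun b hb => hs b (Multiset.mem_cons_of_mem hb))
    rw [Multiset.card_cons, Multiset.map_cons, Multiset.prod_cons, mul_assoc,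
      reverse_mul_of_domain, reverse_X_sub_C, mul_comp]
    have hlin : (1 - C a * X : ℝ[X]).comp (X + 1) = C (-a) * (X - C ((1 - a) / a)) := by
      simp only [sub_comp, one_comp, mul_comp, C_comp, X_comp]
      have h1 : C (-a) * (X - C ((1 - a) / a)) = C (-a) * X + C (a * ((1 - a) / a)) := by
        rw [mul_sub, ← C_mul, sub_eq_add_neg, ← C_neg]
        congr 2
        ring
      rw [h1, mul_div_cancel₀ _ ha.1.ne']
      simp only [C_neg, C_sub, C_1]
      ring
    rw [hlin]
    set T := (reverse ((s.map (fun a => X - C a)).prod * Q)).comp (X + 1 : ℝ[X]) with hT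
    have hprod : (s.map (fun a => X - C a)).prod * Q ≠ 0 :=
      mul_ne_zero (monic_multiset_prod_of_monic _ _ (fun a _ => monic_X_sub_C a)).ne_zero hQ
    have hT0 : T ≠ 0 := by
      intro h0
      have h1 : (reverse ((s.map (fun a => X - C a)).prod * Q)) ≠ 0 := by
        rwa [Ne, reverse_eq_zero]
      rw [hT] at h0
      have h2 := congrArg (fun p : ℝ[X] => p.comp (X - 1)) h0
      simp only [comp_assoc, add_comp, X_comp, one_comp, sub_add_cancel, comp_X, zero_comp] at h2
      exact h1 h2
    have hlin0 : (C (-a) * (X - C ((1 - a) / a)) : ℝ[X]) ≠ 0 :=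
      mul_ne_zero (C_ne_zero.2 (neg_ne_zero.2 ha.1.ne')) (X_sub_C_ne_zero _)
    rw [roots_mul (mul_ne_zero hlin0 hT0), roots_C_mul _ (neg_ne_zero.2 ha.1.ne'),
      roots_X_sub_C, Multiset.countP_add]
    have hpos : 0 < (1 - a) / a := div_pos (by linarith [ha.2]) ha.1
    rw [Multiset.countP_eq_card_filter, Multiset.filter_singleton, if_pos hpos]
    rw [Multiset.card_singleton]
    omega

/-- the number of roots in `(0, 1)`, with multiplicity, is at most the number of sign variations
of the polynomial `(1 + y)^n f(1 / (1 + y))` -/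
lemma count_Ioo_le (P : ℝ[X]) (hP : P ≠ 0) :
    (P.roots.filter (fun x => 0 < x ∧ x < 1)).card ≤
      signVariations ((reverse P).comp (X + 1)) := by
  classical
  set s := P.roots.filter (fun x => 0 < x ∧ x < 1) with hs
  have hle : s ≤ P.roots := Multiset.filter_le _ _
  obtain ⟨Q, hQ⟩ := (Multiset.prod_X_sub_C_dvd_iff_le_roots hP s).2 hle
  have hQ0 : Q ≠ 0 := by
    rintro rfl
    rw [mul_zero] at hQ
    exact hP hQ
  have h1 := key_count s (fun a ha => (Multiset.mem_filter.1 ha).2) Q hQ0
  rw [← hQ] at h1
  exact h1.trans (roots_countP_pos_le_signVariations _)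

lemma toP_coeff (l : List ℤ) (i : ℕ) : (toP l).coeff i = l.getD i 0 := by
  induction l generalizing i with
  | nil => simp
  | cons a l ih =>
    cases i with
    | zero => simp
    | succ i => rw [toP_cons, coeff_add, coeff_C, if_neg (by omega), coeff_X_mul, ih]; simp

lemma toP_natDegree (l : List ℤ) (a : ℤ) (ha : a ≠ 0) :
    (toP (l ++ [a])).natDegree = l.length := by
  apply natDegree_eq_of_le_of_coeff_ne_zero
  · rw [natDegree_le_iff_coeff_eq_zero]
    intro i hi
    rw [toP_coeff, List.getD_eq_default]
    simp only [List.length_append, List.length_singleton]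
    omega
  · rw [toP_coeff]
    simp [ha]

lemma toP_reverse (l : List ℤ) (a : ℤ) (ha : a ≠ 0) :
    reverse (toP (l ++ [a])) = toP (l ++ [a]).reverse := by
  ext i
  rw [coeff_reverse, toP_natDegree l a ha, toP_coeff, toP_coeff]
  rcases le_or_gt i l.length with h | h
  · rw [revAt_le h]
    rw [List.getD_eq_getElem _ _ (by simp only [List.length_append, List.length_singleton]; omega),
      List.getD_eq_getElem _ _
        (by simp only [List.length_reverse, List.length_append, List.length_singleton]; omega),
      List.getElem_reverse]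
    congr 1
    simp
  · rw [revAt_eq_self_of_lt h, List.getD_eq_default, List.getD_eq_default]
    · simp; omega
    · simp; omega

/-- Horner's rule in `X + 1`, natural coefficients -/
noncomputable def horP (l : List ℕ) : ℕ[X] := l.foldl (fun acc a => acc * (X + 1) + C a) 0

/-- Horner's rule -/
def hor (b : ℕ) (l : List ℕ) : ℕ := l.foldl (fun acc a => acc * b + a) 0

lemma horP_eval (b : ℕ) (l : List ℕ) : (horP l).eval b = hor (b + 1) l := by
  unfold horP hor
  suffices h : ∀ acc : ℕ[X], (l.foldl (fun acc a => acc * (X + 1) + C a) acc).eval b =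
      l.foldl (fun acc a => acc * (b + 1) + a) (acc.eval b) by
    rw [h, eval_zero]
  induction l with
  | nil => intro acc; simp
  | cons a l ih => intro acc; simp only [List.foldl_cons, ih]; simp

/-- nonnegative parts -/
def posL (l : List ℤ) : List ℕ := l.map Int.toNat
/-- negative parts -/
def negL (l : List ℤ) : List ℕ := l.map (fun a => (-a).toNat)

lemma horP_diff (l : List ℤ) :
    ((toP l.reverse).comp (X + 1)).map (Int.castRingHom ℝ) =
      (horP (posL l)).map (Nat.castRingHom ℝ) - (horP (negL l)).map (Nat.castRingHom ℝ) := by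
  unfold horP
  suffices h : ∀ (p q : ℕ[X]) (r : ℤ[X]), r.map (Int.castRingHom ℝ) =
      p.map (Nat.castRingHom ℝ) - q.map (Nat.castRingHom ℝ) →
      (r * (X + 1) ^ l.length + (toP l.reverse).comp (X + 1)).map (Int.castRingHom ℝ) =
      ((posL l).foldl (fun acc a => acc * (X + 1) + C a) p).map (Nat.castRingHom ℝ) -
      ((negL l).foldl (fun acc a => acc * (X + 1) + C a) q).map (Nat.castRingHom ℝ) by
    have := h 0 0 0 (by simp)
    simpa using this
  induction l with
  | nil => intro p q r h; simpa [posL, negL] using h
  | cons a l ih =>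
    intro p q r h
    have hstep : (r * (X + 1) + C a).map (Int.castRingHom ℝ) =
        (p * (X + 1) + C a.toNat).map (Nat.castRingHom ℝ) -
        (q * (X + 1) + C (-a).toNat).map (Nat.castRingHom ℝ) := by
      have ha : (a : ℝ) = (a.toNat : ℝ) - ((-a).toNat : ℝ) := by
        have := Int.toNat_sub_toNat_neg a
        exact_mod_cast this.symm
      simp only [Polynomial.map_add, Polynomial.map_mul, h, Polynomial.map_X, Polynomial.map_one,
        Polynomial.map_C]
      rw [show (Int.castRingHom ℝ) a = (Nat.castRingHom ℝ) a.toNat - (Nat.castRingHom ℝ) (-a).toNat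
        from ha, C_sub]
      ring
    have h2 := ih _ _ _ hstep
    simp only [posL, negL, List.map_cons, List.foldl_cons] at h2 ⊢
    rw [← h2, List.length_cons, List.reverse_cons, toP_append, List.length_reverse]
    simp only [toP_cons, toP_nil, mul_zero, add_zero, add_comp, mul_comp, pow_comp, X_comp,
      C_comp]
    congr 1
    ring

/-- the sign of `a - b` -/
def sg (a b : ℕ) : SignType := if b < a then 1 else if a < b then -1 else 0

lemma sg_eq (a b : ℕ) : sg a b = SignType.sign ((a : ℝ) - b) := by
  unfold sg
  split_ifs with h1 h2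
  · rw [sign_pos]; rw [sub_pos]; exact_mod_cast h1
  · rw [sign_neg]; rw [sub_neg]; exact_mod_cast h2
  · rw [show a = b by omega]; simp

/-- the signs of the differences of the first `m` digits in base `B` -/
def sgns (B : ℕ) : ℕ → ℕ → ℕ → List SignType
  | 0, _, _ => []
  | m + 1, F, G => sg (F % B) (G % B) :: sgns B m (F / B) (G / B)

lemma eval_divX (f : ℕ[X]) (b : ℕ) : f.eval b = (divX f).eval b * b + f.coeff 0 := by
  conv_lhs => rw [← divX_mul_X_add f]
  simp

lemma sgns_eq (B m : ℕ) (f g : ℕ[X]) (hf : f.eval 1 < B) (hg : g.eval 1 < B) :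
    sgns B m (f.eval B) (g.eval B) =
      (List.range m).map (fun j => SignType.sign ((f.coeff j : ℝ) - g.coeff j)) := by
  induction m generalizing f g with
  | zero => simp [sgns]
  | succ m ih =>
    have e1 := eval_divX f 1
    have e2 := eval_divX g 1
    have hB : 0 < B := by omega
    have f1 : f.eval B % B = f.coeff 0 := by
      rw [eval_divX f B, Nat.mul_add_mod_of_lt (by omega)]
    have f2 : f.eval B / B = (divX f).eval B := by
      rw [eval_divX f B, mul_comm, Nat.mul_add_div hB, Nat.div_eq_of_lt (by omega), add_zero]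
    have g1 : g.eval B % B = g.coeff 0 := by
      rw [eval_divX g B, Nat.mul_add_mod_of_lt (by omega)]
    have g2 : g.eval B / B = (divX g).eval B := by
      rw [eval_divX g B, mul_comm, Nat.mul_add_div hB, Nat.div_eq_of_lt (by omega), add_zero]
    rw [sgns, f1, f2, g1, g2, ih (divX f) (divX g) (by omega) (by omega), List.range_succ_eq_map,
      List.map_cons, List.map_map, sg_eq]
    congr 1
    apply List.map_congr_left
    intro j _
    simp [coeff_divX]

/-- the number of sign variations of a list of signs -/
def svar (s : List SignType) : ℕ := ((s.reverse.filter (· ≠ 0)).destutter (· ≠ ·)).length - 1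

lemma signVariations_eq_svar (T : ℝ[X]) (m : ℕ) (hm : T.natDegree < m) :
    signVariations T = svar ((List.range m).map (fun j => SignType.sign (T.coeff j))) := by
  have hd : T.degree.succ ≤ m := by
    rcases eq_or_ne T 0 with rfl | h0
    · simp
    · rw [degree_eq_natDegree h0]
      exact hm
  have key : ∀ k, T.degree.succ ≤ k →
      (((List.range k).map (fun j => SignType.sign (T.coeff j))).reverse.filter (· ≠ 0)) =
      ((T.coeffList.map SignType.sign).filter (· ≠ 0)) := by
    intro k hk
    induction k, hk using Nat.le_induction with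
    | base =>
      rw [coeffList, ← List.map_reverse, List.map_map]
      rfl
    | succ k hk ih =>
      rw [List.range_succ, List.map_append, List.reverse_append, List.map_singleton,
        List.reverse_singleton, List.singleton_append, List.filter_cons]
      have hc : T.coeff k = 0 := by
        apply coeff_eq_zero_of_degree_lt
        rcases eq_or_ne T 0 with rfl | h0
        · rw [degree_zero]; exact WithBot.bot_lt_coe k
        · rw [degree_eq_natDegree h0] at hk ⊢
          exact WithBot.coe_lt_coe.2 hk
      rw [hc]
      simpa using ih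
  unfold svar
  rw [key m hd]
  rfl

/-- upper bound for the number of roots in `(0, 1)` -/
theorem upper_list (l : List ℤ) (a : ℤ) (ha : a ≠ 0) (B m v : ℕ)
    (h1 : hor 2 (posL (l ++ [a])) < B) (h2 : hor 2 (negL (l ++ [a])) < B)
    (hm : l.length < m)
    (hv : svar (sgns B m (hor (B + 1) (posL (l ++ [a]))) (hor (B + 1) (negL (l ++ [a])))) ≤ v) :
    ((((toP (l ++ [a])).map (Int.castRingHom ℝ)).roots.filter (fun x => 0 < x ∧ x < 1)).card) ≤
      v := by
  set L := l ++ [a] with hL
  have hinj : Function.Injective (Int.castRingHom ℝ) := Int.cast_injective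
  have hdeg : (toP L).natDegree = l.length := toP_natDegree l a ha
  have hP0 : toP L ≠ 0 := by
    intro h0
    have h3 : (toP L).coeff l.length = a := by rw [toP_coeff, hL]; simp
    rw [h0] at h3
    exact ha h3.symm
  have hP : (toP L).map (Int.castRingHom ℝ) ≠ 0 := (Polynomial.map_ne_zero_iff hinj).2 hP0
  refine (count_Ioo_le _ hP).trans (le_trans (le_of_eq ?_) hv)
  have hrev : reverse ((toP L).map (Int.castRingHom ℝ)) =
      (reverse (toP L)).map (Int.castRingHom ℝ) := by
    rw [reverse, reverse, reflect_map, natDegree_map_eq_of_injective hinj]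
  have hcomp : (reverse ((toP L).map (Int.castRingHom ℝ))).comp (X + 1) =
      ((toP L.reverse).comp (X + 1)).map (Int.castRingHom ℝ) := by
    rw [hrev, toP_reverse l a ha, Polynomial.map_comp]
    simp [hL]
  rw [hcomp]
  have hnd : (((toP L.reverse).comp (X + 1)).map (Int.castRingHom ℝ)).natDegree < m := by
    refine lt_of_le_of_lt (natDegree_map_le) (lt_of_le_of_lt natDegree_comp_le ?_)
    rw [← toP_reverse l a ha]
    have h3 : (X + 1 : ℤ[X]).natDegree = 1 := by
      have := natDegree_X_add_C (1 : ℤ)
      simpa using this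
    rw [h3, mul_one]
    exact lt_of_le_of_lt (reverse_natDegree_le _) (by rw [hdeg]; exact hm)
  rw [signVariations_eq_svar _ m hnd, horP_diff]
  congr 1
  have e := sgns_eq B m (horP (posL L)) (horP (negL L))
    (by rw [horP_eval]; exact h1) (by rw [horP_eval]; exact h2)
  rw [horP_eval, horP_eval] at e
  rw [e]
  apply List.map_congr_left
  intro j _
  simp

end Pool.Agent.R326
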